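import Mathlib

/-! Weak mixing and measurable sensitivity (MP_605199). -/

open MeasureTheory

namespace Q68.WM

/-- `T` is weakly mixing: `T × S` is ergodic for every ergodic probability-preserving `S`. -/
def WeaklyMixing {X : Type} [MeasurableSpace X] (μ : Measure X) (T : X → X) : Prop :=
  ∀ (Y : Type) [MeasurableSpace Y] (ν : Measure Y) [IsProbabilityMeasure ν] (S : Y → Y),
    Ergodic S ν → Ergodic (Prod.map T S) (μ.prod ν)

/-- The metric `d` is admissible: all open balls are measurable and have positive measure. -/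
def Admissible {X : Type} [MeasurableSpace X] (μ : Measure X) (d : MetricSpace X) : Prop :=
  ∀ x : X, ∀ ε : ℝ, 0 < ε → MeasurableSet {z | dist x z < ε} ∧ 0 < μ {z | dist x z < ε}

/-- `T` is measurably sensitive with respect to the metric `d`. -/
def SensitiveWrt {X : Type} [MeasurableSpace X] (μ : Measure X) (T : X → X) (d : MetricSpace X) :
    Prop :=
  ∃ δ : ℝ, 0 < δ ∧ ∀ᵐ x ∂μ, ∀ ε : ℝ, 0 < ε →
    ∃ n : ℕ, 0 < μ {z | dist x z < ε ∧ δ < dist (T^[n] z) (T^[n] x)}

/-- The statement which Q1 asks to prove or disprove. -/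
def Question1 : Prop :=
  ∀ (X : Type) [MeasurableSpace X] [StandardBorelSpace X] (μ : Measure X) [SigmaFinite μ],
    (∀ x, μ {x} = 0) → μ Set.univ = ⊤ → ∀ T : X ≃ᵐ X, MeasurePreserving T μ μ →
    WeaklyMixing μ T → ∀ d : MetricSpace X, Admissible μ d → SensitiveWrt μ T d

end Q68.WM
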