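import Mathlib

/-! A transference inequality for measure-preserving maps. -/

open MeasureTheory Polynomial Finset
open scoped ENNReal

namespace Q68.WM

lemma conv_le (p q : ℂ[X]) {M : ℝ} (hM : ∀ z : ℂ, ‖z‖ = 1 → ‖p.eval z‖ ≤ M) :
    ∑ i ∈ (p * q).support, ‖(p * q).coeff i‖ ^ 2 ≤ M ^ 2 * ∑ i ∈ q.support, ‖q.coeff i‖ ^ 2 := by
  have e : M ^ 2 * Real.circleAverage (fun θ => ‖q.eval θ‖ ^ 2) 0 1 =
      Real.circleAverage (fun θ => M ^ 2 • ‖q.eval θ‖ ^ 2) 0 1 := by
    rw [Real.circleAverage_fun_smul, smul_eq_mul]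
  rw [sum_sq_norm_coeff_eq_circleAverage, sum_sq_norm_coeff_eq_circleAverage, e]
  apply Real.circleAverage_mono
  · apply ContinuousOn.circleIntegrable'
    exact ((p * q).continuous.norm.pow 2).continuousOn
  · apply ContinuousOn.circleIntegrable'
    exact ((q.continuous.norm.pow 2).const_smul (M ^ 2)).continuousOn
  · intro z hz
    have hz1 : ‖z‖ = 1 := by simpa using hz
    simp only [eval_mul, norm_mul, mul_pow, smul_eq_mul]
    exact mul_le_mul_of_nonneg_right (pow_le_pow_left₀ (norm_nonneg _) (hM z hz1) 2) (by positivity)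

lemma seq_le (p : ℂ[X]) {M : ℝ} (hM : ∀ z : ℂ, ‖z‖ = 1 → ‖p.eval z‖ ≤ M) (b : ℕ → ℂ)
    (hb : ∀ n, ‖b n‖ ≤ 1) (L : ℕ) :
    ∑ m ∈ range L, ‖p.sum fun j c => c * b (m + j)‖ ^ 2 ≤ M ^ 2 * (L + p.natDegree) := by
  classical
  set Q := L + p.natDegree with hQ
  set q : ℂ[X] := ∑ i ∈ range Q, C (b (Q - 1 - i)) * X ^ i with hq
  have hqc : ∀ i, q.coeff i = if i < Q then b (Q - 1 - i) else 0 := by
    intro i
    rw [hq, finsetSum_coeff]
    simp only [coeff_C_mul_X_pow]
    rw [Finset.sum_ite_eq]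
    simp only [Finset.mem_range]
  have h1 := conv_le p q hM
  have h2 : ∑ i ∈ q.support, ‖q.coeff i‖ ^ 2 ≤ Q := by
    calc _ ≤ ∑ i ∈ range Q, ‖q.coeff i‖ ^ 2 := by
          apply Finset.sum_le_sum_of_subset_of_nonneg
          · intro i hi
            rw [Finset.mem_range]
            by_contra hcon
            rw [mem_support_iff, hqc, if_neg hcon] at hi
            exact hi rfl
          · intro i _ _
            positivity
      _ ≤ ∑ i ∈ range Q, (1 : ℝ) := by
          apply Finset.sum_le_sum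
          intro i hi
          rw [hqc, if_pos (Finset.mem_range.1 hi)]
          exact pow_le_one₀ (norm_nonneg _) (hb _)
      _ = Q := by simp
  have h3 : ∀ m ∈ range L, (p.sum fun j c => c * b (m + j)) = (p * q).coeff (Q - 1 - m) := by
    intro m hm
    rw [Finset.mem_range] at hm
    rw [coeff_mul, Finset.Nat.sum_antidiagonal_eq_sum_range_succ (fun i j => p.coeff i * q.coeff j),
      Polynomial.sum_over_range' p (fun n => by simp) (Q - 1 - m + 1) (by omega)]
    apply Finset.sum_congr rfl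
    intro j hj
    rw [Finset.mem_range] at hj
    rw [hqc, if_pos (by omega)]
    congr 2
    omega
  calc _ = ∑ m ∈ range L, ‖(p * q).coeff (Q - 1 - m)‖ ^ 2 :=
        Finset.sum_congr rfl fun m hm => by rw [h3 m hm]
    _ = ∑ i ∈ (range L).image (fun m => Q - 1 - m), ‖(p * q).coeff i‖ ^ 2 := by
        rw [Finset.sum_image]
        intro x hx y hy hxy
        simp only [Finset.coe_range, Set.mem_Iio] at hx hy
        simp only at hxy
        omega
    _ ≤ ∑ i ∈ (p * q).support, ‖(p * q).coeff i‖ ^ 2 := by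
        rw [← Finset.sum_filter_ne_zero]
        apply Finset.sum_le_sum_of_subset_of_nonneg
        · intro i hi
          rw [mem_support_iff]
          intro h0
          apply (Finset.mem_filter.1 hi).2
          rw [h0]
          simp
        · intro i _ _
          positivity
    _ ≤ M ^ 2 * ∑ i ∈ q.support, ‖q.coeff i‖ ^ 2 := h1
    _ ≤ M ^ 2 * Q := by gcongr
    _ = _ := by rw [hQ]; push_cast; ring

variable {Y : Type*} [MeasurableSpace Y] {ν : Measure Y} [IsProbabilityMeasure ν]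

lemma par_sq {S : Y → Y} (hS : MeasurePreserving S ν ν) {g : Y → ℂ} (hg : Measurable g)
    (hb : ∀ y, ‖g y‖ ≤ 1) (p : ℂ[X]) {M : ℝ} (hM : ∀ z : ℂ, ‖z‖ = 1 → ‖p.eval z‖ ≤ M) :
    ∫⁻ y, ENNReal.ofReal (‖p.sum fun j c => c * g (S^[j] y)‖ ^ 2) ∂ν ≤ ENNReal.ofReal (M ^ 2) := by
  have hmeas : Measurable fun y => ENNReal.ofReal (‖p.sum fun j c => c * g (S^[j] y)‖ ^ 2) := by
    apply ENNReal.measurable_ofReal.comp
    apply Measurable.pow_const
    apply Measurable.norm
    simp only [Polynomial.sum]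
    apply Finset.measurable_sum
    intro j _
    exact (hg.comp (hS.iterate j).measurable).const_mul _
  set I := ∫⁻ y, ENNReal.ofReal (‖p.sum fun j c => c * g (S^[j] y)‖ ^ 2) ∂ν with hI
  have h1 : ∀ L : ℕ, (L : ℝ≥0∞) * I ≤ ENNReal.ofReal (M ^ 2 * (L + p.natDegree)) := by
    intro L
    have h2 : ∀ m : ℕ, ∫⁻ y, ENNReal.ofReal (‖p.sum fun j c => c * g (S^[m + j] y)‖ ^ 2) ∂ν = I := by
      intro m
      rw [hI, ← (hS.iterate m).lintegral_comp hmeas]
      apply lintegral_congr
      intro y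
      congr 4
      funext j c
      rw [← Function.iterate_add_apply, Nat.add_comm]
    calc (L : ℝ≥0∞) * I = ∑ m ∈ range L, ∫⁻ y, ENNReal.ofReal
          (‖p.sum fun j c => c * g (S^[m + j] y)‖ ^ 2) ∂ν := by
          rw [Finset.sum_congr rfl fun m _ => h2 m]
          simp
      _ = ∫⁻ y, ∑ m ∈ range L, ENNReal.ofReal
          (‖p.sum fun j c => c * g (S^[m + j] y)‖ ^ 2) ∂ν := by
          rw [lintegral_finsetSum]
          intro m _
          apply ENNReal.measurable_ofReal.comp
          apply Measurable.pow_const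
          apply Measurable.norm
          simp only [Polynomial.sum]
          apply Finset.measurable_sum
          intro j _
          exact (hg.comp (hS.iterate _).measurable).const_mul _
      _ ≤ ∫⁻ _, ENNReal.ofReal (M ^ 2 * (L + p.natDegree)) ∂ν := by
          apply lintegral_mono
          intro y
          simp only
          rw [← ENNReal.ofReal_sum_of_nonneg (fun _ _ => by positivity)]
          apply ENNReal.ofReal_le_ofReal
          exact seq_le p hM (fun n => g (S^[n] y)) (fun n => hb _) L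
      _ = _ := by simp
  have hfin : I ≠ ∞ := by
    have := h1 1
    rw [Nat.cast_one, one_mul] at this
    exact ne_top_of_le_ne_top ENNReal.ofReal_ne_top this
  rw [← ENNReal.ofReal_toReal hfin]
  apply ENNReal.ofReal_le_ofReal
  have h3 : ∀ L : ℕ, (L : ℝ) * I.toReal ≤ M ^ 2 * (L + p.natDegree) := by
    intro L
    have h4 := ENNReal.toReal_mono ENNReal.ofReal_ne_top (h1 L)
    rw [ENNReal.toReal_mul, ENNReal.toReal_natCast, ENNReal.toReal_ofReal (by positivity)] at h4
    exact h4
  by_contra hcon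
  push Not at hcon
  obtain ⟨L, hL⟩ := exists_nat_gt (M ^ 2 * p.natDegree / (I.toReal - M ^ 2))
  rw [div_lt_iff₀ (by linarith)] at hL
  have := h3 L
  nlinarith

lemma par {S : Y → Y} (hS : MeasurePreserving S ν ν) {g : Y → ℂ} (hg : Measurable g)
    (hb : ∀ y, ‖g y‖ ≤ 1) (p : ℂ[X]) {M : ℝ} (hM0 : 0 < M)
    (hM : ∀ z : ℂ, ‖z‖ = 1 → ‖p.eval z‖ ≤ M) :
    ∫⁻ y, ‖p.sum fun j c => c * g (S^[j] y)‖ₑ ∂ν ≤ ENNReal.ofReal M := by
  have h1 := par_sq hS hg hb p hM
  have hmeas : Measurable fun y => ENNReal.ofReal (‖p.sum fun j c => c * g (S^[j] y)‖ ^ 2) := by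
    apply ENNReal.measurable_ofReal.comp
    apply Measurable.pow_const
    apply Measurable.norm
    simp only [Polynomial.sum]
    apply Finset.measurable_sum
    intro j _
    exact (hg.comp (hS.iterate j).measurable).const_mul _
  calc _ ≤ ∫⁻ y, (ENNReal.ofReal (1 / (2 * M)) *
        ENNReal.ofReal (‖p.sum fun j c => c * g (S^[j] y)‖ ^ 2) + ENNReal.ofReal (M / 2)) ∂ν := by
        apply lintegral_mono
        intro y
        simp only
        rw [← ofReal_norm, ← ENNReal.ofReal_mul (by positivity),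
          ← ENNReal.ofReal_add (by positivity) (by positivity)]
        apply ENNReal.ofReal_le_ofReal
        set a := ‖p.sum fun j c => c * g (S^[j] y)‖
        have : 1 / (2 * M) * a ^ 2 + M / 2 - a = (a - M) ^ 2 / (2 * M) := by
          field_simp
          ring
        have h2 : 0 ≤ (a - M) ^ 2 / (2 * M) := by positivity
        linarith
    _ = ENNReal.ofReal (1 / (2 * M)) * ∫⁻ y,
        ENNReal.ofReal (‖p.sum fun j c => c * g (S^[j] y)‖ ^ 2) ∂ν + ENNReal.ofReal (M / 2) := by
        rw [lintegral_add_right _ measurable_const, lintegral_const_mul _ hmeas]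
        simp
    _ ≤ ENNReal.ofReal (1 / (2 * M)) * ENNReal.ofReal (M ^ 2) + ENNReal.ofReal (M / 2) := by gcongr
    _ = ENNReal.ofReal M := by
        rw [← ENNReal.ofReal_mul (by positivity), ← ENNReal.ofReal_add (by positivity) (by positivity)]
        congr 1
        field_simp
        norm_num

/-- the inequality for the differences along a finite set `A` -/
lemma par_set {S : Y → Y} (hS : MeasurePreserving S ν ν) {g : Y → ℂ} (hg : Measurable g)
    (hb : ∀ y, ‖g y‖ ≤ 1) (A : Finset ℕ) {M : ℝ} (hM0 : 0 < M)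
    (hM : ∀ z : ℂ, ‖z‖ = 1 → ‖(1 - z) * ∑ s ∈ A, z ^ s‖ ≤ M) :
    ∫⁻ y, ‖∑ s ∈ A, (g (S^[s] y) - g (S^[s + 1] y))‖ₑ ∂ν ≤ ENNReal.ofReal M := by
  set p : ℂ[X] := (1 - X) * ∑ s ∈ A, X ^ s with hp
  have h1 : ∀ z : ℂ, p.eval z = (1 - z) * ∑ s ∈ A, z ^ s := by
    intro z
    rw [hp]
    simp [eval_finsetSum]
  have h2 : ∀ y, (p.sum fun j c => c * g (S^[j] y)) = ∑ s ∈ A, (g (S^[s] y) - g (S^[s + 1] y)) := by
    intro y
    set Φ : ℂ[X] →ₗ[ℂ] ℂ := Polynomial.lsum (fun j => LinearMap.mulRight ℂ (g (S^[j] y))) with hΦ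
    have h3 : ∀ q : ℂ[X], Φ q = q.sum fun j c => c * g (S^[j] y) := fun q => rfl
    have h4 : ∀ n, Φ (X ^ n) = g (S^[n] y) := by
      intro n
      rw [h3, Polynomial.X_pow_eq_monomial, Polynomial.sum_monomial_index]
      · simp
      · simp
    rw [← h3, hp, Finset.mul_sum, map_sum]
    apply Finset.sum_congr rfl
    intro s _
    have : (1 - X : ℂ[X]) * X ^ s = X ^ s - X ^ (s + 1) := by ring
    rw [this, map_sub, h4, h4]
  have h3 := par hS hg hb p hM0 (fun z hz => by rw [h1]; exact hM z hz)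
  simp_rw [h2] at h3
  exact h3

end Q68.WM
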