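import Mathlib

/-! Finite sets of integers without short relations and with small exponential sums. -/

open Finset

namespace Q68.WM

/-- few `t` satisfy a given relation -/
lemma card_bad {a R : ℕ} (v : Fin a → ℤ) (j : Fin a) (hj : v j ≠ 0) (B : ℕ) :
    (univ.filter fun t : Fin a → Fin R => |∑ i, v i * ((t i : ℕ) : ℤ)| ≤ B).card * R ≤
      R ^ a * (2 * B + 1) := by
  classical
  have h : ((univ.filter fun t : Fin a → Fin R => |∑ i, v i * ((t i : ℕ) : ℤ)| ≤ B) ×ˢ
      (univ : Finset (Fin R))).card ≤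
      ((univ : Finset (Fin a → Fin R)) ×ˢ (Finset.Icc (-(B : ℤ)) B)).card := by
    apply Finset.card_le_card_of_injOn
      (fun p => (Function.update p.1 j p.2, ∑ i, v i * ((p.1 i : ℕ) : ℤ)))
    · rintro ⟨t, r⟩ h
      simp only [coe_product, coe_filter, mem_univ, true_and, coe_univ, Set.mem_prod,
        Set.mem_ofPred_eq, Set.mem_univ, and_true] at h
      simp only [coe_product, coe_univ, coe_Icc, Set.mem_prod, Set.mem_univ, true_and, Set.mem_Icc]
      exact abs_le.1 h
    · rintro ⟨t, r⟩ _ ⟨t', r'⟩ _ h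
      simp only [Prod.mk.injEq] at h
      obtain ⟨h1, h2⟩ := h
      have hr : r = r' := by
        have := congrFun h1 j
        simpa using this
      have h3 : ∀ i, i ≠ j → t i = t' i := by
        intro i hi
        have := congrFun h1 i
        simpa [Function.update_of_ne hi] using this
      have h4 : t j = t' j := by
        rw [← Finset.add_sum_erase _ (fun i => v i * ((t i : ℕ) : ℤ)) (Finset.mem_univ j),
          ← Finset.add_sum_erase _ (fun i => v i * ((t' i : ℕ) : ℤ)) (Finset.mem_univ j)] at h2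
        have h5 : ∑ x ∈ univ.erase j, v x * ((t x : ℕ) : ℤ) =
            ∑ x ∈ univ.erase j, v x * ((t' x : ℕ) : ℤ) := by
          apply Finset.sum_congr rfl
          intro x hx
          rw [h3 x (Finset.ne_of_mem_erase hx)]
        rw [h5] at h2
        have h6 : v j * ((t j : ℕ) : ℤ) = v j * ((t' j : ℕ) : ℤ) := by linarith
        have h7 := mul_left_cancel₀ hj h6
        apply Fin.ext
        exact_mod_cast h7
      have h8 : t = t' := by
        funext i
        by_cases hi : i = j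
        · rw [hi, h4]
        · exact h3 i hi
      rw [hr, h8]
  rw [Finset.card_product, Finset.card_product] at h
  simp only [Finset.card_univ, Fintype.card_fin, Fintype.card_pi, Finset.prod_const,
    Int.card_Icc] at h
  have h9 : ((B : ℤ) + 1 - -(B : ℤ)).toNat = 2 * B + 1 := by omega
  rw [h9] at h
  exact h

/-- Hoeffding's inequality, counting form -/
lemma card_hoeffding {a R : ℕ} (h : Fin R → ℝ) (hb : ∀ r, |h r| ≤ 2) (h0 : ∑ r, h r = 0)
    {τ : ℝ} (hτ : 0 < τ) (hτ1 : τ ≤ 1) :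
    ((univ.filter fun t : Fin a → Fin R => a * τ ≤ ∑ j, h (t j)).card : ℝ) *
      Real.exp (a * (τ ^ 2 / 16)) ≤ (R : ℝ) ^ a := by
  have h1 : ∑ t : Fin a → Fin R, Real.exp (τ / 8 * ∑ j, h (t j)) ≤
      ((R : ℝ) * Real.exp (τ ^ 2 / 16)) ^ a := by
    have h2 : ∑ t : Fin a → Fin R, Real.exp (τ / 8 * ∑ j, h (t j)) =
        (∑ r, Real.exp (τ / 8 * h r)) ^ a := by
      have h3 : ∀ t : Fin a → Fin R, Real.exp (τ / 8 * ∑ j, h (t j)) =
          ∏ j, Real.exp (τ / 8 * h (t j)) := by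
        intro t
        rw [Finset.mul_sum, Real.exp_sum]
      rw [Finset.sum_congr rfl (fun t _ => h3 t)]
      have h4 := Finset.prod_univ_sum (fun _ : Fin a => (univ : Finset (Fin R)))
        (fun (_ : Fin a) r => Real.exp (τ / 8 * h r))
      rw [Finset.prod_const, Finset.card_univ, Fintype.card_fin] at h4
      rw [h4, Fintype.piFinset_univ]
    rw [h2]
    apply pow_le_pow_left₀ (Finset.sum_nonneg fun _ _ => (Real.exp_pos _).le)
    calc ∑ r, Real.exp (τ / 8 * h r) ≤ ∑ r : Fin R, (1 + τ / 8 * h r + τ ^ 2 / 16) := by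
          apply Finset.sum_le_sum
          intro r _
          have h5 : |τ / 8 * h r| ≤ 1 := by
            rw [abs_mul, abs_of_pos (by positivity : 0 < τ / 8)]
            nlinarith [hb r, abs_nonneg (h r)]
          have h6 := Real.abs_exp_sub_one_sub_id_le h5
          have h7 : (τ / 8 * h r) ^ 2 ≤ τ ^ 2 / 16 := by
            have h8 : h r ^ 2 ≤ 4 := by
              have := hb r
              rw [← sq_abs]
              nlinarith [abs_nonneg (h r)]
            nlinarith [sq_nonneg τ]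
          linarith [le_abs_self (Real.exp (τ / 8 * h r) - 1 - τ / 8 * h r)]
      _ = R * (1 + τ ^ 2 / 16) := by
          rw [Finset.sum_add_distrib, Finset.sum_add_distrib, ← Finset.mul_sum, h0]
          simp
          ring
      _ ≤ R * Real.exp (τ ^ 2 / 16) := by
          apply mul_le_mul_of_nonneg_left _ (by positivity)
          linarith [Real.add_one_le_exp (τ ^ 2 / 16)]
  have h2 : ((univ.filter fun t : Fin a → Fin R => a * τ ≤ ∑ j, h (t j)).card : ℝ) *
      Real.exp (τ / 8 * (a * τ)) ≤ ∑ t : Fin a → Fin R, Real.exp (τ / 8 * ∑ j, h (t j)) := by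
    rw [← nsmul_eq_mul]
    calc _ ≤ ∑ t ∈ univ.filter (fun t : Fin a → Fin R => a * τ ≤ ∑ j, h (t j)),
          Real.exp (τ / 8 * ∑ j, h (t j)) := by
          apply Finset.card_nsmul_le_sum
          intro t ht
          rw [Real.exp_le_exp]
          apply mul_le_mul_of_nonneg_left _ (by positivity)
          exact (Finset.mem_filter.1 ht).2
      _ ≤ _ := Finset.sum_le_univ_sum_of_nonneg fun _ => (Real.exp_pos _).le
  have h3 := h2.trans h1
  rw [mul_pow, ← Real.exp_nat_mul] at h3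
  have h4 : Real.exp (τ / 8 * (a * τ)) = Real.exp (a * (τ ^ 2 / 16)) * Real.exp (a * (τ ^ 2 / 16)) := by
    rw [← Real.exp_add]; congr 1; ring
  rw [h4, ← mul_assoc] at h3
  exact le_of_mul_le_mul_right h3 (Real.exp_pos _)

lemma norm_pow_sub_pow_le {z w : ℂ} (hz : ‖z‖ = 1) (hw : ‖w‖ = 1) (r : ℕ) :
    ‖z ^ r - w ^ r‖ ≤ r * ‖z - w‖ := by
  induction r with
  | zero => simp
  | succ r ih =>
    have h : z ^ (r + 1) - w ^ (r + 1) = z * (z ^ r - w ^ r) + (z - w) * w ^ r := by ring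
    rw [h]
    calc _ ≤ ‖z * (z ^ r - w ^ r)‖ + ‖(z - w) * w ^ r‖ := norm_add_le _ _
      _ = ‖z ^ r - w ^ r‖ + ‖z - w‖ := by rw [norm_mul, norm_mul, hz, norm_pow, hw]; simp
      _ ≤ _ := by push_cast; linarith

/-- the points of a net of the circle -/
noncomputable def net (M : ℕ) (l : ℕ) : ℂ :=
  Complex.exp (((-Real.pi + 2 * Real.pi * l / M : ℝ) : ℂ) * Complex.I)

lemma norm_net (M l : ℕ) : ‖net M l‖ = 1 := Complex.norm_exp_ofReal_mul_I _

lemma exists_net {z : ℂ} (hz : ‖z‖ = 1) {M : ℕ} (hM : 0 < M) :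
    ∃ l ∈ range (M + 1), ‖z - net M l‖ ≤ 2 * Real.pi / M := by
  have hM' : (0 : ℝ) < M := by exact_mod_cast hM
  have hpi := Real.pi_pos
  set θ := Complex.arg z with hθ
  have h1 : -Real.pi < θ := Complex.neg_pi_lt_arg z
  have h2 : θ ≤ Real.pi := Complex.arg_le_pi z
  set l := ⌊(θ + Real.pi) * M / (2 * Real.pi)⌋₊ with hl
  have h3 : (0 : ℝ) ≤ (θ + Real.pi) * M / (2 * Real.pi) := by
    apply div_nonneg _ (by positivity)
    exact mul_nonneg (by linarith) hM'.le
  have h4 : (l : ℝ) ≤ (θ + Real.pi) * M / (2 * Real.pi) := Nat.floor_le h3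
  have h5 : (θ + Real.pi) * M / (2 * Real.pi) < l + 1 := Nat.lt_floor_add_one _
  refine ⟨l, ?_, ?_⟩
  · rw [Finset.mem_range, Nat.lt_succ_iff]
    have h6 : (θ + Real.pi) * M / (2 * Real.pi) ≤ M := by
      rw [div_le_iff₀ (by positivity)]
      nlinarith
    exact_mod_cast h4.trans h6
  · have hz' : z = Complex.exp ((θ : ℂ) * Complex.I) := by
      have := Complex.norm_mul_exp_arg_mul_I z
      rw [hz] at this
      rw [hθ]
      simpa using this.symm
    have h7 : |θ - (-Real.pi + 2 * Real.pi * l / M)| ≤ 2 * Real.pi / M := by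
      rw [le_div_iff₀ (by positivity)] at h4
      rw [div_lt_iff₀ (by positivity)] at h5
      have e1 : θ - (-Real.pi + 2 * Real.pi * l / M) = ((θ + Real.pi) * M - 2 * Real.pi * l) / M := by
        field_simp
        ring
      rw [e1, abs_div, abs_of_pos hM', abs_of_nonneg (by linarith)]
      gcongr
      linarith
    have h8 : ‖z - net M l‖ ≤ |θ - (-Real.pi + 2 * Real.pi * l / M)| := by
      set φ := (-Real.pi + 2 * Real.pi * l / M) with hφ
      have e2 : z - net M l = net M l * (Complex.exp (((θ - φ : ℝ) : ℂ) * Complex.I) - 1) := by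
        rw [hz', net, ← hφ, mul_sub, ← Complex.exp_add, mul_one]
        congr 2
        push_cast
        ring
      rw [e2, norm_mul, norm_net, one_mul, mul_comm _ Complex.I]
      have := Real.norm_exp_I_mul_ofReal_sub_one_le (x := θ - φ)
      simpa using this
    exact h8.trans h7

/-- exponential sum deviation at one point of the circle -/
lemma card_dev {a R : ℕ} (hR : 0 < R) {z : ℂ} (hz : ‖z‖ = 1) {τ : ℝ} (hτ : 0 < τ) (hτ1 : τ ≤ 1) :
    ((univ.filter fun t : Fin a → Fin R =>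
      2 * (a * τ) < ‖∑ j, (z ^ (t j : ℕ) - (∑ r : Fin R, z ^ (r : ℕ)) / R)‖).card : ℝ) *
      Real.exp (a * (τ ^ 2 / 16)) ≤ 4 * (R : ℝ) ^ a := by
  classical
  have hR' : (0 : ℝ) < R := by exact_mod_cast hR
  have hRc : (R : ℂ) ≠ 0 := by exact_mod_cast hR.ne'
  set D : ℂ := (∑ r : Fin R, z ^ (r : ℕ)) / R with hD
  have hDn : ‖D‖ ≤ 1 := by
    rw [hD, norm_div, Complex.norm_natCast, div_le_one hR']
    calc _ ≤ ∑ r : Fin R, ‖z ^ (r : ℕ)‖ := norm_sum_le _ _
      _ = R := by simp [hz]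
  have hn : ∀ r : Fin R, ‖z ^ (r : ℕ) - D‖ ≤ 2 := by
    intro r
    calc _ ≤ ‖z ^ (r : ℕ)‖ + ‖D‖ := norm_sub_le _ _
      _ ≤ 2 := by rw [norm_pow, hz, one_pow]; linarith
  have hs : ∑ r : Fin R, (z ^ (r : ℕ) - D) = 0 := by
    rw [Finset.sum_sub_distrib, Finset.sum_const, Finset.card_univ, Fintype.card_fin, nsmul_eq_mul,
      hD, mul_div_cancel₀ _ hRc, sub_self]
  have hre : ∑ r : Fin R, (z ^ (r : ℕ) - D).re = 0 := by
    rw [← Complex.re_sum, hs, Complex.zero_re]
  have him : ∑ r : Fin R, (z ^ (r : ℕ) - D).im = 0 := by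
    rw [← Complex.im_sum, hs, Complex.zero_im]
  have c1 := card_hoeffding (a := a) (fun r : Fin R => (z ^ (r : ℕ) - D).re)
    (fun r => (Complex.abs_re_le_norm _).trans (hn r)) hre hτ hτ1
  have c2 := card_hoeffding (a := a) (fun r : Fin R => -(z ^ (r : ℕ) - D).re)
    (fun r => by rw [abs_neg]; exact (Complex.abs_re_le_norm _).trans (hn r))
    (by rw [Finset.sum_neg_distrib, hre, neg_zero]) hτ hτ1
  have c3 := card_hoeffding (a := a) (fun r : Fin R => (z ^ (r : ℕ) - D).im)
    (fun r => (Complex.abs_im_le_norm _).trans (hn r)) him hτ hτ1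
  have c4 := card_hoeffding (a := a) (fun r : Fin R => -(z ^ (r : ℕ) - D).im)
    (fun r => by rw [abs_neg]; exact (Complex.abs_im_le_norm _).trans (hn r))
    (by rw [Finset.sum_neg_distrib, him, neg_zero]) hτ hτ1
  have hsub : (univ.filter fun t : Fin a → Fin R =>
      2 * (a * τ) < ‖∑ j, (z ^ (t j : ℕ) - D)‖) ⊆
      ((univ.filter fun t : Fin a → Fin R => a * τ ≤ ∑ j, (z ^ (t j : ℕ) - D).re) ∪
       (univ.filter fun t : Fin a → Fin R => a * τ ≤ ∑ j, -(z ^ (t j : ℕ) - D).re)) ∪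
      ((univ.filter fun t : Fin a → Fin R => a * τ ≤ ∑ j, (z ^ (t j : ℕ) - D).im) ∪
       (univ.filter fun t : Fin a → Fin R => a * τ ≤ ∑ j, -(z ^ (t j : ℕ) - D).im)) := by
    intro t ht
    simp only [Finset.mem_union, Finset.mem_filter, Finset.mem_univ, true_and,
      Finset.sum_neg_distrib] at ht ⊢
    rw [← Complex.re_sum, ← Complex.im_sum]
    by_contra hcon
    push Not at hcon
    obtain ⟨⟨q1, q2⟩, q3, q4⟩ := hcon
    have h1 := Complex.norm_le_abs_re_add_abs_im (∑ j, (z ^ (t j : ℕ) - D))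
    have h2 : |(∑ j, (z ^ (t j : ℕ) - D)).re| < a * τ := abs_lt.2 ⟨by linarith, q1⟩
    have h3 : |(∑ j, (z ^ (t j : ℕ) - D)).im| < a * τ := abs_lt.2 ⟨by linarith, q3⟩
    linarith
  have hcard := (Finset.card_le_card hsub).trans ((Finset.card_union_le _ _).trans
    (add_le_add (Finset.card_union_le _ _) (Finset.card_union_le _ _)))
  have hcard' := (Nat.cast_le (α := ℝ)).2 hcard
  push_cast at hcard'
  have he := Real.exp_pos (a * (τ ^ 2 / 16))
  calc _ ≤ _ := mul_le_mul_of_nonneg_right hcard' he.le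
    _ ≤ _ := by linarith

/-- unit vectors with signs, and zero -/
def unitVec {a : ℕ} : Option (Fin a × Bool) → (Fin a → ℤ)
  | none => 0
  | some (j, true) => Pi.single j 1
  | some (j, false) => Pi.single j (-1)

lemma exists_word {a : ℕ} (N : ℕ) (v : Fin a → ℤ) (hv : ∑ j, |v j| ≤ N) :
    ∃ w : Fin N → Option (Fin a × Bool), v = ∑ i, unitVec (w i) := by
  classical
  induction N generalizing v with
  | zero =>
    refine ⟨fun i => i.elim0, ?_⟩
    simp only [Finset.univ_eq_empty, Finset.sum_empty]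
    funext j
    have h1 : |v j| ≤ ∑ j, |v j| :=
      Finset.single_le_sum (f := fun j => |v j|) (fun _ _ => abs_nonneg _) (Finset.mem_univ j)
    have h2 : |v j| ≤ 0 := h1.trans (by simpa using hv)
    simpa using abs_nonpos_iff.1 h2
  | succ N ih =>
    by_cases h0 : v = 0
    · refine ⟨fun _ => none, ?_⟩
      simp [unitVec, h0]
    · obtain ⟨j, hj⟩ := Function.ne_iff.1 h0
      simp only [Pi.zero_apply] at hj
      rcases lt_or_gt_of_ne hj with hneg | hpos
      · have h1 : ∑ i, |(v - Pi.single j (-1 : ℤ) : Fin a → ℤ) i| ≤ N := by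
          have h2 : ∀ i, |(v - Pi.single j (-1 : ℤ) : Fin a → ℤ) i| =
              |v i| - (Pi.single j (1 : ℤ) : Fin a → ℤ) i := by
            intro i
            by_cases hi : i = j
            · subst hi
              simp only [Pi.sub_apply, Pi.single_eq_same]
              rw [abs_of_neg hneg, abs_of_nonpos (by linarith)]
              ring
            · simp [Pi.single_eq_of_ne hi]
          rw [Finset.sum_congr rfl (fun i _ => h2 i), Finset.sum_sub_distrib,
            Finset.sum_pi_single']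
          simp only [Finset.mem_univ, if_true]
          push_cast at hv
          linarith
        obtain ⟨w, hw⟩ := ih _ h1
        refine ⟨Fin.cons (some (j, false)) w, ?_⟩
        rw [Fin.sum_univ_succ]
        simp only [Fin.cons_zero, Fin.cons_succ]
        rw [← hw]
        change v = Pi.single j (-1) + _
        abel
      · have h1 : ∑ i, |(v - Pi.single j (1 : ℤ) : Fin a → ℤ) i| ≤ N := by
          have h2 : ∀ i, |(v - Pi.single j (1 : ℤ) : Fin a → ℤ) i| =
              |v i| - (Pi.single j (1 : ℤ) : Fin a → ℤ) i := by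
            intro i
            by_cases hi : i = j
            · subst hi
              simp only [Pi.sub_apply, Pi.single_eq_same]
              rw [abs_of_pos hpos, abs_of_nonneg (by linarith)]
            · simp [Pi.single_eq_of_ne hi]
          rw [Finset.sum_congr rfl (fun i _ => h2 i), Finset.sum_sub_distrib,
            Finset.sum_pi_single']
          simp only [Finset.mem_univ, if_true]
          push_cast at hv
          linarith
        obtain ⟨w, hw⟩ := ih _ h1
        refine ⟨Fin.cons (some (j, true)) w, ?_⟩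
        rw [Fin.sum_univ_succ]
        simp only [Fin.cons_zero, Fin.cons_succ]
        rw [← hw]
        change v = Pi.single j 1 + _
        abel

lemma exists_tuple {a R N B M : ℕ} (hR : 0 < R) {τ : ℝ} (hτ : 0 < τ) (hτ1 : τ ≤ 1)
    (h1 : 4 * ((2 * a + 1) ^ N * (2 * B + 1)) ≤ R)
    (h2 : 8 * ((M : ℝ) + 1) < Real.exp (a * (τ ^ 2 / 16))) :
    ∃ t : Fin a → Fin R,
      (∀ v : Fin a → ℤ, v ≠ 0 → ∑ j, |v j| ≤ N → (B : ℤ) < |∑ i, v i * ((t i : ℕ) : ℤ)|) ∧
      ∀ l ∈ range (M + 1), ‖∑ j, (net M l ^ (t j : ℕ) - (∑ r : Fin R, net M l ^ (r : ℕ)) / R)‖ ≤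
        2 * (a * τ) := by
  classical
  have hR' : (0 : ℝ) < R := by exact_mod_cast hR
  let W : Finset (Fin N → Option (Fin a × Bool)) := univ.filter fun w => ∑ i, unitVec (w i) ≠ 0
  let bad1 : Finset (Fin a → Fin R) := W.biUnion fun w =>
    univ.filter fun t : Fin a → Fin R => |∑ j, (∑ i, unitVec (w i)) j * ((t j : ℕ) : ℤ)| ≤ B
  let bad2 : Finset (Fin a → Fin R) := (range (M + 1)).biUnion fun l =>
    univ.filter fun t : Fin a → Fin R =>
      2 * (a * τ) < ‖∑ j, (net M l ^ (t j : ℕ) - (∑ r : Fin R, net M l ^ (r : ℕ)) / R)‖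
  have hW : W.card ≤ (2 * a + 1) ^ N := by
    calc W.card ≤ (univ : Finset (Fin N → Option (Fin a × Bool))).card := Finset.card_filter_le _ _
      _ = (2 * a + 1) ^ N := by
        simp only [Finset.card_univ, Fintype.card_pi, Fintype.card_option, Fintype.card_prod,
          Fintype.card_fin, Fintype.card_bool, Finset.prod_const]
        rw [mul_comm a 2]
  have hb1 : bad1.card * R ≤ R ^ a * (2 * B + 1) * (2 * a + 1) ^ N := by
    calc bad1.card * R ≤ (∑ w ∈ W, (univ.filter fun t : Fin a → Fin R =>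
            |∑ j, (∑ i, unitVec (w i)) j * ((t j : ℕ) : ℤ)| ≤ B).card) * R :=
          Nat.mul_le_mul_right _ Finset.card_biUnion_le
      _ = ∑ w ∈ W, (univ.filter fun t : Fin a → Fin R =>
            |∑ j, (∑ i, unitVec (w i)) j * ((t j : ℕ) : ℤ)| ≤ B).card * R := Finset.sum_mul _ _ _
      _ ≤ ∑ w ∈ W, R ^ a * (2 * B + 1) := by
          apply Finset.sum_le_sum
          intro w hw
          have h3 : (∑ i, unitVec (w i) : Fin a → ℤ) ≠ 0 := (Finset.mem_filter.1 hw).2
          obtain ⟨j, hj⟩ := Function.ne_iff.1 h3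
          exact card_bad _ j hj B
      _ = W.card * (R ^ a * (2 * B + 1)) := by rw [Finset.sum_const, smul_eq_mul]
      _ ≤ (2 * a + 1) ^ N * (R ^ a * (2 * B + 1)) := Nat.mul_le_mul_right _ hW
      _ = _ := by ring
  have hb1' : 4 * bad1.card ≤ R ^ a := by
    have h3 : 4 * bad1.card * R ≤ R ^ a * R := by
      calc 4 * bad1.card * R = 4 * (bad1.card * R) := by ring
        _ ≤ 4 * (R ^ a * (2 * B + 1) * (2 * a + 1) ^ N) := Nat.mul_le_mul_left _ hb1
        _ = R ^ a * (4 * ((2 * a + 1) ^ N * (2 * B + 1))) := by ring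
        _ ≤ R ^ a * R := Nat.mul_le_mul_left _ h1
    exact Nat.le_of_mul_le_mul_right h3 hR
  have hb2 : (bad2.card : ℝ) * Real.exp (a * (τ ^ 2 / 16)) ≤ (M + 1) * (4 * (R : ℝ) ^ a) := by
    calc (bad2.card : ℝ) * Real.exp (a * (τ ^ 2 / 16))
        ≤ (∑ l ∈ range (M + 1), ((univ.filter fun t : Fin a → Fin R =>
          2 * (a * τ) < ‖∑ j, (net M l ^ (t j : ℕ) - (∑ r : Fin R, net M l ^ (r : ℕ)) / R)‖).card : ℝ)) *
          Real.exp (a * (τ ^ 2 / 16)) := by
          apply mul_le_mul_of_nonneg_right _ (Real.exp_pos _).le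
          exact_mod_cast Finset.card_biUnion_le
      _ = ∑ l ∈ range (M + 1), ((univ.filter fun t : Fin a → Fin R =>
          2 * (a * τ) < ‖∑ j, (net M l ^ (t j : ℕ) - (∑ r : Fin R, net M l ^ (r : ℕ)) / R)‖).card : ℝ) *
          Real.exp (a * (τ ^ 2 / 16)) := Finset.sum_mul _ _ _
      _ ≤ ∑ l ∈ range (M + 1), 4 * (R : ℝ) ^ a := by
          apply Finset.sum_le_sum
          intro l _
          exact card_dev hR (norm_net M l) hτ hτ1
      _ = _ := by rw [Finset.sum_const, Finset.card_range, nsmul_eq_mul]; push_cast; ring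
  have hRa : (0 : ℝ) < (R : ℝ) ^ a := by positivity
  have hb2' : 2 * (bad2.card : ℝ) < (R : ℝ) ^ a := by
    have h3 : 2 * (bad2.card : ℝ) * Real.exp (a * (τ ^ 2 / 16)) <
        (R : ℝ) ^ a * Real.exp (a * (τ ^ 2 / 16)) := by
      calc 2 * (bad2.card : ℝ) * Real.exp (a * (τ ^ 2 / 16))
          = 2 * ((bad2.card : ℝ) * Real.exp (a * (τ ^ 2 / 16))) := by ring
        _ ≤ 2 * ((M + 1) * (4 * (R : ℝ) ^ a)) := by linarith
        _ = (R : ℝ) ^ a * (8 * ((M : ℝ) + 1)) := by ring
        _ < _ := mul_lt_mul_of_pos_left h2 hRa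
    exact lt_of_mul_lt_mul_right h3 (Real.exp_pos _).le
  have htot : (bad1 ∪ bad2).card < (univ : Finset (Fin a → Fin R)).card := by
    have h3 : ((bad1 ∪ bad2).card : ℝ) ≤ bad1.card + bad2.card := by
      exact_mod_cast Finset.card_union_le _ _
    have h4 : 4 * (bad1.card : ℝ) ≤ (R : ℝ) ^ a := by exact_mod_cast hb1'
    have h5 : ((univ : Finset (Fin a → Fin R)).card : ℝ) = (R : ℝ) ^ a := by
      simp
    have h6 : ((bad1 ∪ bad2).card : ℝ) < ((univ : Finset (Fin a → Fin R)).card : ℝ) := by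
      rw [h5]; linarith
    exact_mod_cast h6
  obtain ⟨t, _, ht⟩ := Finset.exists_mem_notMem_of_card_lt_card htot
  rw [Finset.mem_union, not_or] at ht
  refine ⟨t, ?_, ?_⟩
  · intro v hv hN
    by_contra hcon
    push Not at hcon
    apply ht.1
    obtain ⟨w, rfl⟩ := exists_word N v hN
    rw [Finset.mem_biUnion]
    exact ⟨w, Finset.mem_filter.2 ⟨Finset.mem_univ _, hv⟩, Finset.mem_filter.2 ⟨Finset.mem_univ _, hcon⟩⟩
  · intro l hl
    by_contra hcon
    push Not at hcon
    apply ht.2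
    rw [Finset.mem_biUnion]
    exact ⟨l, hl, Finset.mem_filter.2 ⟨Finset.mem_univ _, hcon⟩⟩

lemma exists_params (N B a0 : ℕ) {τ : ℝ} (hτ : 0 < τ) :
    ∃ a R M : ℕ, a0 ≤ a ∧ 0 < a ∧ 0 < R ∧ 4 * ((2 * a + 1) ^ N * (2 * B + 1)) ≤ R ∧ 1 / τ ≤ R ∧
      4 * Real.pi * R / τ ≤ M ∧ 8 * ((M : ℝ) + 1) < Real.exp (a * (τ ^ 2 / 16)) := by
  have hpi := Real.pi_pos
  set c : ℝ := τ ^ 2 / 16 with hc
  have hc0 : 0 < c := by positivity
  -- `K a ^ N + K < exp (c a)` for large `a`
  set K : ℝ := 8 * (4 * Real.pi / τ * (4 * (3 ^ N * (2 * B + 1)) + (1 / τ + 1)) + 2) with hK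
  have hK0 : 0 < K := by positivity
  have h1 : Filter.Tendsto (fun a : ℕ => (c * (a : ℝ)) ^ N * Real.exp (-(c * (a : ℝ)))) Filter.atTop
      (nhds 0) := by
    have h2 : Filter.Tendsto (fun a : ℕ => c * (a : ℝ)) Filter.atTop Filter.atTop :=
      (tendsto_natCast_atTop_atTop).const_mul_atTop hc0
    exact (Real.tendsto_pow_mul_exp_neg_atTop_nhds_zero N).comp h2
  have h3 : ∀ᶠ a : ℕ in Filter.atTop,
      (c * (a : ℝ)) ^ N * Real.exp (-(c * (a : ℝ))) < c ^ N / K :=
    (tendsto_order.1 h1).2 _ (by positivity)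
  obtain ⟨a, h4, h5, h6⟩ := (h3.and ((Filter.eventually_ge_atTop a0).and
    (Filter.eventually_ge_atTop 1))).exists
  have ha1 : (1 : ℝ) ≤ a := by exact_mod_cast h6
  have h7 : K * (a : ℝ) ^ N < Real.exp (c * a) := by
    rw [mul_pow, Real.exp_neg, lt_div_iff₀ hK0] at h4
    have h8 : c ^ N * ((a : ℝ) ^ N * K) < c ^ N * Real.exp (c * a) := by
      have h9 := mul_lt_mul_of_pos_right h4 (Real.exp_pos (c * a))
      calc c ^ N * ((a : ℝ) ^ N * K) =
          c ^ N * (a : ℝ) ^ N * (Real.exp (c * a))⁻¹ * K * Real.exp (c * a) := by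
            field_simp
        _ < _ := h9
    have h10 := lt_of_mul_lt_mul_left h8 (by positivity)
    linarith
  set R : ℕ := 4 * ((2 * a + 1) ^ N * (2 * B + 1)) + (⌈1 / τ⌉₊) with hR
  set M : ℕ := ⌈4 * Real.pi * R / τ⌉₊ with hM
  have hR0 : 0 < R := by positivity
  refine ⟨a, R, M, h5, h6, hR0, by omega, ?_, Nat.le_ceil _, ?_⟩
  · calc 1 / τ ≤ (⌈1 / τ⌉₊ : ℝ) := Nat.le_ceil _
      _ ≤ R := by exact_mod_cast (by omega)
  · have h8 : (R : ℝ) ≤ (4 * (3 ^ N * (2 * B + 1)) + (1 / τ + 1)) * (a : ℝ) ^ N := by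
      have h9 : (R : ℝ) = 4 * ((2 * (a : ℝ) + 1) ^ N * (2 * B + 1)) + (⌈1 / τ⌉₊ : ℝ) := by
        rw [hR]; push_cast; ring
      have h10 : (2 * (a : ℝ) + 1) ^ N ≤ 3 ^ N * (a : ℝ) ^ N := by
        rw [← mul_pow]
        apply pow_le_pow_left₀ (by positivity)
        linarith
      have h11 : (⌈1 / τ⌉₊ : ℝ) ≤ 1 / τ + 1 := (Nat.ceil_lt_add_one (by positivity)).le
      have h12 : (1 : ℝ) ≤ (a : ℝ) ^ N := one_le_pow₀ ha1
      have h13 : (0 : ℝ) ≤ 1 / τ + 1 := by positivity
      rw [h9]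
      calc _ ≤ 4 * ((3 ^ N * (a : ℝ) ^ N) * (2 * B + 1)) + (1 / τ + 1) * (a : ℝ) ^ N := by
            gcongr
            nlinarith
        _ = _ := by ring
    have h9 : (M : ℝ) ≤ 4 * Real.pi * R / τ + 1 :=
      (Nat.ceil_lt_add_one (by positivity)).le
    have h12 : (1 : ℝ) ≤ (a : ℝ) ^ N := one_le_pow₀ ha1
    calc 8 * ((M : ℝ) + 1) ≤ 8 * (4 * Real.pi / τ * R + 2) := by
          have : 4 * Real.pi * R / τ = 4 * Real.pi / τ * R := by ring
          linarith
      _ ≤ 8 * (4 * Real.pi / τ * ((4 * (3 ^ N * (2 * B + 1)) + (1 / τ + 1)) * (a : ℝ) ^ N) +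
          2 * (a : ℝ) ^ N) := by
          gcongr
          linarith
      _ = K * (a : ℝ) ^ N := by rw [hK]; ring
      _ < Real.exp (c * a) := h7
      _ = _ := by rw [mul_comm]

/-- A large finite set of natural numbers without short relations (even up to `B`), whose
exponential sums are small in the sense of the last condition. -/
theorem exists_set (N B a0 : ℕ) (hN : 2 ≤ N) {η : ℝ} (hη : 0 < η) :
    ∃ S : Finset ℕ, a0 ≤ S.card ∧ S.Nonempty ∧
      (∀ v : ℕ → ℤ, (∃ s ∈ S, v s ≠ 0) → ∑ s ∈ S, |v s| ≤ N →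
        (B : ℤ) < |∑ s ∈ S, v s * (s : ℤ)|) ∧
      ∀ z : ℂ, ‖z‖ = 1 → ‖(1 - z) * ∑ s ∈ S, z ^ s‖ ≤ η * S.card := by
  classical
  set τ : ℝ := min (η / 8) 1 with hτ
  have hτ0 : 0 < τ := lt_min (by positivity) one_pos
  have hτ1 : τ ≤ 1 := min_le_right _ _
  have hτη : 8 * τ ≤ η := by
    have := min_le_left (η / 8) 1
    linarith
  obtain ⟨a, R, M, ha0, ha, hR, h1, h2, h3, h4⟩ := exists_params N B a0 hτ0
  obtain ⟨t, ht1, ht2⟩ := exists_tuple hR hτ0 hτ1 h1 h4
  have hR' : (0 : ℝ) < R := by exact_mod_cast hR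
  have hpi := Real.pi_pos
  have hM0 : 0 < M := by
    have : (0 : ℝ) < M := lt_of_lt_of_le (by positivity) h3
    exact_mod_cast this
  have hM' : (0 : ℝ) < M := by exact_mod_cast hM0
  have ha' : (0 : ℝ) < a := by exact_mod_cast ha
  have hinj : Function.Injective fun j => (t j : ℕ) := by
    intro i j hij
    by_contra hne
    have h5 := ht1 (Pi.single i 1 - Pi.single j 1) ?_ ?_
    · have h6 : ∑ k, (Pi.single i (1 : ℤ) - Pi.single j (1 : ℤ) : Fin a → ℤ) k * ((t k : ℕ) : ℤ) =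
          ((t i : ℕ) : ℤ) - ((t j : ℕ) : ℤ) := by
        simp only [Pi.sub_apply, sub_mul, Finset.sum_sub_distrib, Pi.single_apply, ite_mul, one_mul,
          zero_mul, Finset.sum_ite_eq', Finset.mem_univ, if_true]
      rw [h6] at h5
      simp only at hij
      rw [hij, sub_self, abs_zero] at h5
      have : (0 : ℤ) ≤ B := by positivity
      linarith
    · intro h
      have := congrFun h i
      simp [Pi.single_eq_of_ne hne] at this
    · calc ∑ k, |(Pi.single i (1 : ℤ) - Pi.single j (1 : ℤ) : Fin a → ℤ) k|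
          ≤ ∑ k, ((Pi.single i (1 : ℤ) : Fin a → ℤ) k + (Pi.single j (1 : ℤ) : Fin a → ℤ) k) := by
            apply Finset.sum_le_sum
            intro k _
            simp only [Pi.sub_apply, Pi.single_apply]
            split_ifs <;> simp
        _ = 2 := by
            rw [Finset.sum_add_distrib]
            simp
        _ ≤ N := by exact_mod_cast hN
  refine ⟨univ.image fun j => (t j : ℕ), ?_, ?_, ?_, ?_⟩
  · rw [Finset.card_image_of_injective _ hinj]
    simpa using ha0
  · have : Nonempty (Fin a) := ⟨⟨0, ha⟩⟩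
    exact Finset.univ_nonempty.image _
  · intro v hv hvN
    rw [Finset.sum_image (fun i _ j _ h => hinj h)] at hvN ⊢
    apply ht1 (fun j => v (t j)) _ hvN
    obtain ⟨s, hs, hvs⟩ := hv
    obtain ⟨j, _, rfl⟩ := Finset.mem_image.1 hs
    intro h
    exact hvs (congrFun h j)
  · intro z hz
    rw [Finset.sum_image (fun i _ j _ h => hinj h), Finset.card_image_of_injective _ hinj]
    simp only [Finset.card_univ, Fintype.card_fin]
    obtain ⟨l, hl, hzl⟩ := exists_net hz hM0
    have hw := norm_net M l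
    have h5 := ht2 l hl
    set w := net M l with hwdef
    set D : ℂ → ℂ := fun z => (∑ r : Fin R, z ^ (r : ℕ)) / R with hD
    have h6 : ‖∑ j, z ^ (t j : ℕ) - ∑ j, w ^ (t j : ℕ)‖ ≤ a * (R * ‖z - w‖) := by
      rw [← Finset.sum_sub_distrib]
      calc _ ≤ ∑ j, ‖z ^ (t j : ℕ) - w ^ (t j : ℕ)‖ := norm_sum_le _ _
        _ ≤ ∑ j : Fin a, (R * ‖z - w‖) := by
          apply Finset.sum_le_sum
          intro j _
          refine (norm_pow_sub_pow_le hz hw _).trans ?_
          gcongr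
          exact (t j).2.le
        _ = _ := by simp
    have h7 : ‖D z - D w‖ ≤ R * ‖z - w‖ := by
      rw [hD]
      simp only
      rw [← sub_div, norm_div, Complex.norm_natCast, div_le_iff₀ hR', ← Finset.sum_sub_distrib]
      calc _ ≤ ∑ r : Fin R, ‖z ^ (r : ℕ) - w ^ (r : ℕ)‖ := norm_sum_le _ _
        _ ≤ ∑ r : Fin R, (R * ‖z - w‖) := by
          apply Finset.sum_le_sum
          intro j _
          refine (norm_pow_sub_pow_le hz hw _).trans ?_
          gcongr
          exact j.2.le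
        _ = _ := by simp; ring
    have h8 : ‖∑ j, w ^ (t j : ℕ) - a * D w‖ ≤ 2 * (a * τ) := by
      rw [Finset.sum_sub_distrib, Finset.sum_const, Finset.card_univ, Fintype.card_fin,
        nsmul_eq_mul] at h5
      exact h5
    have h9 : 2 * (R * ‖z - w‖) ≤ τ := by
      have h10 : 2 * (R * ‖z - w‖) ≤ 2 * (R * (2 * Real.pi / M)) := by gcongr
      refine h10.trans ?_
      rw [div_le_iff₀ hτ0] at h3
      have e : 2 * (R * (2 * Real.pi / M)) = 4 * Real.pi * R / M := by ring
      rw [e, div_le_iff₀ hM']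
      linarith
    have h10 : ‖∑ j, z ^ (t j : ℕ) - a * D z‖ ≤ 3 * (a * τ) := by
      have e : ∑ j, z ^ (t j : ℕ) - a * D z = (∑ j, z ^ (t j : ℕ) - ∑ j, w ^ (t j : ℕ)) +
          (∑ j, w ^ (t j : ℕ) - a * D w) - a * (D z - D w) := by ring
      rw [e]
      calc _ ≤ ‖(∑ j, z ^ (t j : ℕ) - ∑ j, w ^ (t j : ℕ)) + (∑ j, w ^ (t j : ℕ) - a * D w)‖ +
            ‖(a : ℂ) * (D z - D w)‖ := norm_sub_le _ _
        _ ≤ ‖∑ j, z ^ (t j : ℕ) - ∑ j, w ^ (t j : ℕ)‖ + ‖∑ j, w ^ (t j : ℕ) - a * D w‖ +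
            a * ‖D z - D w‖ := by
            rw [norm_mul, Complex.norm_natCast]
            gcongr
            exact norm_add_le _ _
        _ ≤ a * (R * ‖z - w‖) + 2 * (a * τ) + a * (R * ‖z - w‖) := by gcongr
        _ = a * (2 * (R * ‖z - w‖)) + 2 * (a * τ) := by ring
        _ ≤ a * τ + 2 * (a * τ) := by gcongr
        _ = _ := by ring
    have h11 : ‖(1 - z) * D z‖ ≤ 2 * τ := by
      have e : (1 - z) * D z = (1 - z ^ R) / R := by
        rw [hD]
        simp only
        rw [Finset.sum_range (f := fun r => z ^ r) |>.symm, ← mul_div_assoc, mul_neg_geom_sum]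
      rw [e, norm_div, Complex.norm_natCast, div_le_iff₀ hR']
      have h12 : ‖1 - z ^ R‖ ≤ 2 := by
        calc _ ≤ ‖(1 : ℂ)‖ + ‖z ^ R‖ := norm_sub_le _ _
          _ = 2 := by rw [norm_pow, hz]; norm_num
      have h13 : 1 ≤ τ * R := by
        rw [div_le_iff₀ hτ0] at h2
        linarith
      linarith
    have h12 : ‖1 - z‖ ≤ 2 := by
      calc _ ≤ ‖(1 : ℂ)‖ + ‖z‖ := norm_sub_le _ _
        _ = 2 := by rw [hz]; norm_num
    have e : (1 - z) * ∑ j, z ^ (t j : ℕ) = (1 - z) * (∑ j, z ^ (t j : ℕ) - a * D z) +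
        a * ((1 - z) * D z) := by ring
    rw [e]
    calc _ ≤ ‖(1 - z) * (∑ j, z ^ (t j : ℕ) - a * D z)‖ + ‖a * ((1 - z) * D z)‖ := norm_add_le _ _
      _ = ‖1 - z‖ * ‖∑ j, z ^ (t j : ℕ) - a * D z‖ + a * ‖(1 - z) * D z‖ := by
        rw [norm_mul, norm_mul, Complex.norm_natCast]
      _ ≤ 2 * (3 * (a * τ)) + a * (2 * τ) := by gcongr
      _ = 8 * τ * a := by ring
      _ ≤ η * a := by gcongr

end Q68.WM
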