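import Mathlib
import Pool.Agent.Q68.WM.Sets

/-! A group norm on the integers for which random-like sets `SS k` are small. -/

open Finset

namespace Q68.WM

/-- the set chosen at level `k` when the current bound is `h` -/
noncomputable def Sof (k h : ℕ) : Finset ℕ :=
  Classical.choose (exists_set (2 ^ (k + 1) + 2) (2 * h) (k + 2) (Nat.le_add_left 2 _)
    (η := 1 / ((k : ℝ) + 1)) (by positivity))

lemma Sof_spec (k h : ℕ) : k + 2 ≤ (Sof k h).card ∧ (Sof k h).Nonempty ∧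
      (∀ v : ℕ → ℤ, (∃ s ∈ Sof k h, v s ≠ 0) →
        ∑ s ∈ Sof k h, |v s| ≤ (2 ^ (k + 1) + 2 : ℕ) →
        ((2 * h : ℕ) : ℤ) < |∑ s ∈ Sof k h, v s * (s : ℤ)|) ∧
      ∀ z : ℂ, ‖z‖ = 1 → ‖(1 - z) * ∑ s ∈ Sof k h, z ^ s‖ ≤ 1 / ((k : ℝ) + 1) * (Sof k h).card :=
  Classical.choose_spec (exists_set (2 ^ (k + 1) + 2) (2 * h) (k + 2) (Nat.le_add_left 2 _)
    (η := 1 / ((k : ℝ) + 1)) (by positivity))

/-- the bounds `h_k` -/
noncomputable def hh : ℕ → ℕ
  | 0 => 1
  | k + 1 => hh k + (2 ^ (k + 1) + 2) * (Sof k (hh k)).sup id + 1 +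
      2 * (Sof k (hh k)).card * (2 * hh k + 1)

/-- the sets `S_k` -/
noncomputable def SS (k : ℕ) : Finset ℕ := Sof k (hh k)

lemma SS_card (k : ℕ) : k + 2 ≤ (SS k).card := (Sof_spec k (hh k)).1

lemma SS_nonempty (k : ℕ) : (SS k).Nonempty := (Sof_spec k (hh k)).2.1

lemma SS_diss (k : ℕ) (v : ℕ → ℤ) (h : ∃ s ∈ SS k, v s ≠ 0)
    (hv : ∑ s ∈ SS k, |v s| ≤ 2 ^ (k + 1) + 2) :
    (2 * hh k : ℤ) < |∑ s ∈ SS k, v s * (s : ℤ)| := by
  have := (Sof_spec k (hh k)).2.2.1 v h (by push_cast; exact hv)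
  push_cast at this
  exact this

lemma SS_exp (k : ℕ) (z : ℂ) (hz : ‖z‖ = 1) :
    ‖(1 - z) * ∑ s ∈ SS k, z ^ s‖ ≤ 1 / ((k : ℝ) + 1) * (SS k).card :=
  (Sof_spec k (hh k)).2.2.2 z hz

lemma hh_succ (k : ℕ) : hh (k + 1) = hh k + (2 ^ (k + 1) + 2) * (SS k).sup id + 1 +
      2 * (SS k).card * (2 * hh k + 1) := rfl

lemma SS_le {k s : ℕ} (hs : s ∈ SS k) : s ≤ (SS k).sup id := Finset.le_sup (f := id) hs

lemma hh_lt_succ (k : ℕ) : hh k < hh (k + 1) := by
  rw [hh_succ]; omega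

lemma hh_mono : Monotone hh := monotone_nat_of_le_succ fun k => (hh_lt_succ k).le

lemma le_hh (k : ℕ) : k ≤ hh k := by
  induction k with
  | zero => exact Nat.zero_le _
  | succ k ih => have := hh_lt_succ k; omega

lemma sum_le_hh (K : ℕ) : ∑ k ∈ range K, (2 ^ (k + 1) + 2) * (SS k).sup id ≤ hh K := by
  induction K with
  | zero => simp
  | succ K ih =>
    rw [Finset.sum_range_succ, hh_succ]
    omega

/-- the value of a coefficient vector -/
noncomputable def val (v : ℕ →₀ (ℕ → ℤ)) : ℤ := v.sum fun k x => ∑ s ∈ SS k, x s * (s : ℤ)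

/-- the cost of a coefficient vector -/
noncomputable def cost (v : ℕ →₀ (ℕ → ℤ)) : ℝ :=
  v.sum fun k x => (1 / 2 : ℝ) ^ (k + 1) * ∑ s ∈ SS k, |(x s : ℝ)|

lemma val_add (v w : ℕ →₀ (ℕ → ℤ)) : val (v + w) = val v + val w := by
  apply Finsupp.sum_add_index'
  · intro k; simp
  · intro k x y
    rw [← Finset.sum_add_distrib]
    apply Finset.sum_congr rfl
    intro s _
    simp [add_mul]

lemma val_neg (v : ℕ →₀ (ℕ → ℤ)) : val (-v) = -val v := by
  have h := val_add v (-v)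
  rw [add_neg_cancel] at h
  have h0 : val 0 = 0 := Finsupp.sum_zero_index
  rw [h0] at h
  linarith

lemma val_sub (v w : ℕ →₀ (ℕ → ℤ)) : val (v - w) = val v - val w := by
  rw [sub_eq_add_neg, val_add, val_neg, sub_eq_add_neg]

lemma val_eq (v : ℕ →₀ (ℕ → ℤ)) {T : Finset ℕ} (h : v.support ⊆ T) :
    val v = ∑ k ∈ T, ∑ s ∈ SS k, v k s * (s : ℤ) :=
  Finsupp.sum_of_support_subset v h _ (by intro k _; simp)

lemma cost_eq (v : ℕ →₀ (ℕ → ℤ)) {T : Finset ℕ} (h : v.support ⊆ T) :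
    cost v = ∑ k ∈ T, (1 / 2 : ℝ) ^ (k + 1) * ∑ s ∈ SS k, |(v k s : ℝ)| :=
  Finsupp.sum_of_support_subset v h _ (by intro k _; simp)

lemma cost_nonneg (v : ℕ →₀ (ℕ → ℤ)) : 0 ≤ cost v := by
  apply Finset.sum_nonneg
  intro k _
  positivity

lemma cost_neg (v : ℕ →₀ (ℕ → ℤ)) : cost (-v) = cost v := by
  rw [cost_eq (-v) (T := v.support) (by rw [Finsupp.support_neg]), cost_eq v (Finset.Subset.refl _)]
  apply Finset.sum_congr rfl
  intro k _
  simp

lemma cost_add_le (v w : ℕ →₀ (ℕ → ℤ)) : cost (v + w) ≤ cost v + cost w := by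
  classical
  rw [cost_eq (v + w) (T := v.support ∪ w.support) Finsupp.support_add,
    cost_eq v (T := v.support ∪ w.support) Finset.subset_union_left,
    cost_eq w (T := v.support ∪ w.support) Finset.subset_union_right, ← Finset.sum_add_distrib]
  apply Finset.sum_le_sum
  intro k _
  rw [← mul_add, ← Finset.sum_add_distrib]
  apply mul_le_mul_of_nonneg_left _ (by positivity)
  apply Finset.sum_le_sum
  intro s _
  simp only [Finsupp.coe_add, Pi.add_apply]
  push_cast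
  exact abs_add_le _ _

/-- **the dissociation property** -/
lemma key (w : ℕ →₀ (ℕ → ℤ)) (hw : ∀ k, ∑ s ∈ SS k, |w k s| ≤ 2 ^ (k + 1) + 2) {K : ℕ}
    (hv : |val w| ≤ hh K) : ∀ k, K ≤ k → ∀ s ∈ SS k, w k s = 0 := by
  classical
  by_contra hcon
  push Not at hcon
  obtain ⟨k₀, hk₀, s₀, hs₀, hne₀⟩ := hcon
  -- the largest bad level
  set bad := w.support.filter fun k => ∃ s ∈ SS k, w k s ≠ 0 with hbad
  have hmem : k₀ ∈ bad := by
    rw [hbad, Finset.mem_filter]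
    refine ⟨?_, s₀, hs₀, hne₀⟩
    rw [Finsupp.mem_support_iff]
    intro h
    apply hne₀
    rw [h]
    rfl
  set L := bad.max' ⟨k₀, hmem⟩ with hL
  have hLmem : L ∈ bad := Finset.max'_mem _ _
  have hL0 : k₀ ≤ L := Finset.le_max' _ _ hmem
  have hLmax : ∀ k, L < k → ∀ s ∈ SS k, w k s = 0 := by
    intro k hk s hs
    by_contra hne
    have : k ∈ bad := by
      rw [hbad, Finset.mem_filter]
      refine ⟨?_, s, hs, hne⟩
      rw [Finsupp.mem_support_iff]
      intro h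
      apply hne
      rw [h]
      rfl
    exact absurd (Finset.le_max' _ _ this) (not_le.2 hk)
  have hex := (Finset.mem_filter.1 hLmem).2
  have h1 := SS_diss L (w L) hex (hw L)
  -- the value
  have h2 : val w = ∑ k ∈ range (L + 1), ∑ s ∈ SS k, w k s * (s : ℤ) := by
    rw [val_eq w (T := w.support ∪ range (L + 1)) Finset.subset_union_left]
    symm
    apply Finset.sum_subset Finset.subset_union_right
    intro k _ hk
    rw [Finset.mem_range, not_lt] at hk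
    apply Finset.sum_eq_zero
    intro s hs
    rw [hLmax k (by omega) s hs, zero_mul]
  rw [Finset.sum_range_succ] at h2
  have h3 : |∑ k ∈ range L, ∑ s ∈ SS k, w k s * (s : ℤ)| ≤ hh L := by
    calc _ ≤ ∑ k ∈ range L, |∑ s ∈ SS k, w k s * (s : ℤ)| := Finset.abs_sum_le_sum_abs _ _
      _ ≤ ∑ k ∈ range L, (((2 ^ (k + 1) + 2) * (SS k).sup id : ℕ) : ℤ) := by
          apply Finset.sum_le_sum
          intro k _
          calc _ ≤ ∑ s ∈ SS k, |w k s * (s : ℤ)| := Finset.abs_sum_le_sum_abs _ _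
            _ ≤ ∑ s ∈ SS k, |w k s| * ((SS k).sup id : ℕ) := by
                apply Finset.sum_le_sum
                intro s hs
                rw [abs_mul, Nat.abs_cast]
                apply mul_le_mul_of_nonneg_left _ (abs_nonneg _)
                exact_mod_cast SS_le hs
            _ = (∑ s ∈ SS k, |w k s|) * ((SS k).sup id : ℕ) := by rw [Finset.sum_mul]
            _ ≤ (2 ^ (k + 1) + 2) * ((SS k).sup id : ℕ) :=
                mul_le_mul_of_nonneg_right (hw k) (by positivity)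
            _ = _ := by push_cast; ring
      _ ≤ hh L := by
          rw [← Nat.cast_sum]
          exact_mod_cast sum_le_hh L
  have h4 : (hh K : ℤ) ≤ hh L := by exact_mod_cast hh_mono (hk₀.trans hL0)
  have h5 : ∑ s ∈ SS L, w L s * (s : ℤ) =
      val w - ∑ k ∈ range L, ∑ s ∈ SS k, w k s * (s : ℤ) := by rw [h2]; ring
  rw [h5] at h1
  have h6 := abs_sub (val w) (∑ k ∈ range L, ∑ s ∈ SS k, w k s * (s : ℤ))
  linarith

/-- consequences of a small cost -/
lemma small_cost (v : ℕ →₀ (ℕ → ℤ)) {K : ℕ} (hv : cost v < (1 / 2 : ℝ) ^ (K + 1)) :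
    (∀ k ≤ K, ∀ s ∈ SS k, v k s = 0) ∧ ∀ k, ∑ s ∈ SS k, |v k s| ≤ 2 ^ (k + 1) := by
  classical
  have h1 : ∀ k, (1 / 2 : ℝ) ^ (k + 1) * ∑ s ∈ SS k, |(v k s : ℝ)| < (1 / 2 : ℝ) ^ (K + 1) := by
    intro k
    refine lt_of_le_of_lt ?_ hv
    rw [cost_eq v (T := insert k v.support) (Finset.subset_insert _ _)]
    exact Finset.single_le_sum (f := fun k => (1 / 2 : ℝ) ^ (k + 1) * ∑ s ∈ SS k, |(v k s : ℝ)|)
      (fun i _ => by positivity) (Finset.mem_insert_self _ _)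
  have h2 : ∀ k, ∑ s ∈ SS k, |(v k s : ℝ)| < 2 ^ (k + 1) * (1 / 2 : ℝ) ^ (K + 1) := by
    intro k
    have h3 : (2 : ℝ) ^ (k + 1) * ((1 / 2 : ℝ) ^ (k + 1) * ∑ s ∈ SS k, |(v k s : ℝ)|) <
        2 ^ (k + 1) * (1 / 2 : ℝ) ^ (K + 1) := mul_lt_mul_of_pos_left (h1 k) (by positivity)
    rwa [← mul_assoc, ← mul_pow, show (2 : ℝ) * (1 / 2) = 1 by norm_num, one_pow, one_mul] at h3
  refine ⟨fun k hk s hs => ?_, fun k => ?_⟩
  · have h3 : |(v k s : ℝ)| < 1 := by
      calc |(v k s : ℝ)| ≤ ∑ s ∈ SS k, |(v k s : ℝ)| :=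
            Finset.single_le_sum (f := fun s => |(v k s : ℝ)|) (fun i _ => abs_nonneg _) hs
        _ < 2 ^ (k + 1) * (1 / 2 : ℝ) ^ (K + 1) := h2 k
        _ ≤ 2 ^ (K + 1) * (1 / 2 : ℝ) ^ (K + 1) := by
            gcongr
            norm_num
        _ = 1 := by rw [← mul_pow]; norm_num
    have h4 : |v k s| < 1 := by exact_mod_cast h3
    exact Int.abs_lt_one_iff.1 h4
  · have h3 : ∑ s ∈ SS k, |(v k s : ℝ)| ≤ 2 ^ (k + 1) := by
      refine (h2 k).le.trans ?_
      have : (1 / 2 : ℝ) ^ (K + 1) ≤ 1 := pow_le_one₀ (by norm_num) (by norm_num)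
      nlinarith [pow_pos (show (0 : ℝ) < 2 by norm_num) (k + 1)]
    exact_mod_cast h3

/-- the norm `ν` -/
noncomputable def nu (n : ℤ) : ℝ := ⨅ v : ℕ →₀ (ℕ → ℤ), (|((n - val v : ℤ) : ℝ)| + cost v)

lemma nu_bdd (n : ℤ) :
    BddBelow (Set.range fun v : ℕ →₀ (ℕ → ℤ) => (|((n - val v : ℤ) : ℝ)| + cost v)) := by
  refine ⟨0, ?_⟩
  rintro _ ⟨v, rfl⟩
  have := cost_nonneg v
  positivity

lemma nu_le (n : ℤ) (v : ℕ →₀ (ℕ → ℤ)) : nu n ≤ |((n - val v : ℤ) : ℝ)| + cost v :=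
  ciInf_le (nu_bdd n) v

lemma nu_nonneg (n : ℤ) : 0 ≤ nu n := by
  apply le_ciInf
  intro v
  have := cost_nonneg v
  positivity

lemma exists_of_nu_lt {n : ℤ} {c : ℝ} (h : nu n < c) :
    ∃ v : ℕ →₀ (ℕ → ℤ), |((n - val v : ℤ) : ℝ)| + cost v < c := exists_lt_of_ciInf_lt h

lemma exists_of_nu_lt' {n : ℤ} {K : ℕ} (h : nu n < (1 / 2 : ℝ) ^ (K + 1)) :
    ∃ v : ℕ →₀ (ℕ → ℤ), n = val v ∧ cost v < (1 / 2 : ℝ) ^ (K + 1) := by
  obtain ⟨v, hv⟩ := exists_of_nu_lt h
  have h1 := cost_nonneg v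
  have h2 : |((n - val v : ℤ) : ℝ)| < 1 := by
    have : (1 / 2 : ℝ) ^ (K + 1) ≤ 1 := pow_le_one₀ (by norm_num) (by norm_num)
    linarith
  have h3 : |n - val v| < 1 := by exact_mod_cast h2
  have h4 := Int.abs_lt_one_iff.1 h3
  refine ⟨v, by linarith, ?_⟩
  have := abs_nonneg ((n - val v : ℤ) : ℝ)
  linarith

lemma val_eq_zero_of (v : ℕ →₀ (ℕ → ℤ)) (h : ∀ k, ∀ s ∈ SS k, v k s = 0) : val v = 0 := by
  rw [val_eq v (Finset.Subset.refl _)]
  apply Finset.sum_eq_zero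
  intro k _
  apply Finset.sum_eq_zero
  intro s hs
  rw [h k s hs, zero_mul]

lemma eq_zero_of_nu {n : ℤ} (h : nu n = 0) : n = 0 := by
  have hK : |n| ≤ hh n.natAbs := by
    have := le_hh n.natAbs
    rw [Int.abs_eq_natAbs]
    exact_mod_cast this
  have h1 : nu n < (1 / 2 : ℝ) ^ (n.natAbs + 1) := by rw [h]; positivity
  obtain ⟨v, hv, hc⟩ := exists_of_nu_lt' h1
  obtain ⟨h2, h3⟩ := small_cost v hc
  rw [hv]
  apply val_eq_zero_of
  intro k s hs
  rcases le_total k n.natAbs with hk | hk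
  · exact h2 k hk s hs
  · apply key v (fun k => (h3 k).trans (by linarith)) (K := n.natAbs) _ k hk s hs
    rw [← hv]
    exact hK

/-- the group norm -/
noncomputable def nrm : AddGroupNorm ℤ where
  toFun := nu
  map_zero' := by
    apply le_antisymm _ (nu_nonneg 0)
    refine (nu_le 0 0).trans ?_
    have h0 : val 0 = 0 := Finsupp.sum_zero_index
    have h1 : cost 0 = 0 := Finsupp.sum_zero_index
    rw [h0, h1]
    simp
  add_le' := by
    intro m n
    have h : ∀ v w, nu (m + n) ≤ (|((m - val v : ℤ) : ℝ)| + cost v) + (|((n - val w : ℤ) : ℝ)| + cost w) := by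
      intro v w
      refine (nu_le _ (v + w)).trans ?_
      have h1 := cost_add_le v w
      have h2 : ((m + n - val (v + w) : ℤ) : ℝ) = ((m - val v : ℤ) : ℝ) + ((n - val w : ℤ) : ℝ) := by
        rw [val_add]; push_cast; ring
      rw [h2]
      have h3 := abs_add_le ((m - val v : ℤ) : ℝ) ((n - val w : ℤ) : ℝ)
      linarith
    have h2 : ∀ v, nu (m + n) - (|((m - val v : ℤ) : ℝ)| + cost v) ≤ nu n := by
      intro v
      apply le_ciInf
      intro w
      linarith [h v w]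
    have h3 : nu (m + n) - nu n ≤ nu m := by
      apply le_ciInf
      intro v
      linarith [h2 v]
    linarith
  neg' := by
    have h : ∀ n, nu (-n) ≤ nu n := by
      intro n
      apply le_ciInf
      intro v
      refine (nu_le _ (-v)).trans ?_
      rw [cost_neg, val_neg]
      have : ((-n - -val v : ℤ) : ℝ) = -((n - val v : ℤ) : ℝ) := by push_cast; ring
      rw [this, abs_neg]
    intro n
    apply le_antisymm (h n)
    have := h (-n)
    rwa [neg_neg] at this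
  eq_zero_of_map_eq_zero' := fun _ h => eq_zero_of_nu h

/-- the integers with the new norm -/
def ZZ : Type := ℤ

noncomputable instance : NormedAddCommGroup ZZ :=
  @AddGroupNorm.toNormedAddCommGroup ZZ (inferInstanceAs (AddCommGroup ℤ)) nrm

instance : Countable ZZ := inferInstanceAs (Countable ℤ)

lemma norm_def (n : ZZ) : ‖n‖ = nu n := rfl

end Q68.WM
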