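import Mathlib
import Pool.Agent.Q68.WM.Norm

/-! The completed group, random sums. -/

open MeasureTheory Filter Topology Set
open scoped ENNReal

namespace Q68.WM

/-- the completion of the integers -/
abbrev G : Type := UniformSpace.Completion ZZ

noncomputable instance : MeasurableSpace G := borel G

instance : BorelSpace G := ⟨rfl⟩

/-- the embedding of the integers -/
noncomputable def io (n : ℤ) : G := ((show ZZ from n : ZZ) : G)

lemma io_add (m n : ℤ) : io (m + n) = io m + io n :=
  UniformSpace.Completion.coe_add (show ZZ from m) (show ZZ from n)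

lemma io_zero : io 0 = 0 := UniformSpace.Completion.coe_zero

lemma io_neg (n : ℤ) : io (-n) = -io n := by
  rw [eq_neg_iff_add_eq_zero, ← io_add, neg_add_cancel, io_zero]

lemma io_sub (m n : ℤ) : io (m - n) = io m - io n := by
  rw [sub_eq_add_neg, io_add, io_neg, sub_eq_add_neg]

lemma io_sum {ι : Type*} (s : Finset ι) (f : ι → ℤ) : io (∑ i ∈ s, f i) = ∑ i ∈ s, io (f i) := by
  classical
  induction s using Finset.induction_on with
  | empty => simp [io_zero]
  | insert a s ha ih => rw [Finset.sum_insert ha, Finset.sum_insert ha, io_add, ih]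

lemma norm_io (n : ℤ) : ‖io n‖ = nu n := UniformSpace.Completion.norm_coe (show ZZ from n)

lemma dense_io (x : G) {ε : ℝ} (hε : 0 < ε) : ∃ n : ℤ, ‖x - io n‖ < ε := by
  have h := UniformSpace.Completion.denseRange_coe (α := ZZ)
  obtain ⟨n, hn⟩ := Metric.denseRange_iff.1 h x ε hε
  exact ⟨n, by rw [← dist_eq_norm]; exact hn⟩

lemma norm_io_le {k s : ℕ} (hs : s ∈ SS k) : ‖io (s : ℤ)‖ ≤ (1 / 2 : ℝ) ^ (k + 1) := by
  classical
  rw [norm_io]
  refine (nu_le _ (Finsupp.single k (Pi.single s 1))).trans ?_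
  have h1 : val (Finsupp.single k (Pi.single s (1 : ℤ))) = s := by
    rw [val, Finsupp.sum_single_index (by simp)]
    simp only [Pi.single_apply, ite_mul, one_mul, zero_mul, Finset.sum_ite_eq', hs, if_true]
  have h2 : cost (Finsupp.single k (Pi.single s (1 : ℤ))) = (1 / 2 : ℝ) ^ (k + 1) := by
    rw [cost, Finsupp.sum_single_index (by simp)]
    have : ∑ t ∈ SS k, |((Pi.single s (1 : ℤ) : ℕ → ℤ) t : ℝ)| = 1 := by
      rw [Finset.sum_eq_single_of_mem s hs]
      · simp
      · intro t _ ht
        simp [Pi.single_eq_of_ne ht]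
    rw [this, mul_one]
  rw [h1, h2]
  simp

/-- the space of digit sequences -/
abbrev P : Type := ∀ k : ℕ, SS k

/-- the `k`-th digit, in `G` -/
noncomputable def dig (k : ℕ) (ω : P) : G := io ((ω k : ℕ) : ℤ)

lemma norm_dig (k : ℕ) (ω : P) : ‖dig k ω‖ ≤ (1 / 2 : ℝ) ^ (k + 1) := norm_io_le (ω k).2

lemma geom_summable (K : ℕ) : Summable fun j : ℕ => (1 / 2 : ℝ) ^ (K + j + 1) := by
  have : (fun j : ℕ => (1 / 2 : ℝ) ^ (K + j + 1)) = fun j => (1 / 2 : ℝ) ^ (K + 1) * (1 / 2) ^ j := by
    funext j; rw [← pow_add]; congr 1; ring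
  rw [this]
  exact (summable_geometric_of_lt_one (by norm_num) (by norm_num)).mul_left _

lemma geom_sum_eq (K : ℕ) : ∑' j : ℕ, (1 / 2 : ℝ) ^ (K + j + 1) = (1 / 2) ^ K := by
  have : (fun j : ℕ => (1 / 2 : ℝ) ^ (K + j + 1)) = fun j => (1 / 2 : ℝ) ^ (K + 1) * (1 / 2) ^ j := by
    funext j; rw [← pow_add]; congr 1; ring
  rw [this, tsum_mul_left, tsum_geometric_of_lt_one (by norm_num) (by norm_num)]
  rw [pow_succ]; ring

lemma summable_dig (K : ℕ) (ω : P) : Summable fun j => dig (K + j) ω :=
  Summable.of_norm_bounded (geom_summable K) fun j => norm_dig (K + j) ω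

/-- the sum of the digits from `K` on -/
noncomputable def tail (K : ℕ) (ω : P) : G := ∑' j, dig (K + j) ω

lemma norm_tail (K : ℕ) (ω : P) : ‖tail K ω‖ ≤ (1 / 2 : ℝ) ^ K := by
  rw [← geom_sum_eq K]
  exact tsum_of_norm_bounded (geom_summable K).hasSum fun j => norm_dig (K + j) ω

lemma tail_succ (K : ℕ) (ω : P) : tail K ω = dig K ω + tail (K + 1) ω := by
  rw [tail, (summable_dig K ω).tsum_eq_zero_add, tail]
  simp only [add_zero]
  congr 2
  funext j
  congr 1
  ring

lemma tail_congr {K : ℕ} {ω ω' : P} (h : ∀ k, K ≤ k → ω k = ω' k) : tail K ω = tail K ω' := by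
  rw [tail, tail]
  congr 1
  funext j
  rw [dig, dig, h (K + j) (by omega)]

lemma tail_sum (K L : ℕ) (ω : P) :
    tail K ω = io (∑ j ∈ Finset.range L, ((ω (K + j) : ℕ) : ℤ)) + tail (K + L) ω := by
  induction L with
  | zero => simp [io_zero]
  | succ L ih =>
    rw [ih, Finset.sum_range_succ, io_add, tail_succ (K + L), dig, ← add_assoc K L 1, ← add_assoc]

lemma measurable_dig (k : ℕ) : Measurable (dig k) := by
  have h : Measurable fun s : SS k => io ((s : ℕ) : ℤ) := measurable_of_countable _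
  exact h.comp (measurable_pi_apply k)

lemma measurable_tail (K : ℕ) : Measurable (tail K) := by
  apply measurable_of_tendsto_metrizable (f := fun n ω => ∑ j ∈ Finset.range n, dig (K + j) ω)
  · intro n
    exact Finset.measurable_sum _ fun j _ => measurable_dig (K + j)
  · rw [tendsto_pi_nhds]
    intro ω
    exact (summable_dig K ω).hasSum.tendsto_sum_nat

/-- sums of digits determine the integer -/
lemma inj_key {K : ℕ} {n : ℤ} (hn : |n| ≤ hh K) (ω ω' : P) (h : io n + tail K ω = tail K ω') :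
    n = 0 := by
  classical
  set d : ℤ := n + ∑ j ∈ Finset.range 3, ((ω (K + j) : ℕ) : ℤ) -
    ∑ j ∈ Finset.range 3, ((ω' (K + j) : ℕ) : ℤ) with hd
  have h1 : io d = tail (K + 3) ω' - tail (K + 3) ω := by
    rw [tail_sum K 3 ω, tail_sum K 3 ω'] at h
    rw [hd, io_sub, io_add, sub_eq_sub_iff_add_eq_add, add_assoc, h, add_comm]
  have h2 : nu d < (1 / 2 : ℝ) ^ (K + 1) := by
    rw [← norm_io, h1]
    calc _ ≤ ‖tail (K + 3) ω'‖ + ‖tail (K + 3) ω‖ := norm_sub_le _ _
      _ ≤ (1 / 2 : ℝ) ^ (K + 3) + (1 / 2) ^ (K + 3) := add_le_add (norm_tail _ _) (norm_tail _ _)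
      _ = (1 / 2) ^ (K + 1) * (1 / 2) := by rw [pow_add, pow_add]; ring
      _ < (1 / 2) ^ (K + 1) := by
        have : (0 : ℝ) < (1 / 2) ^ (K + 1) := by positivity
        linarith
  obtain ⟨v, hv, hc⟩ := exists_of_nu_lt' h2
  obtain ⟨h3, h4⟩ := small_cost v hc
  -- the vector of the digits
  let e : P → ℕ → (ℕ →₀ (ℕ → ℤ)) := fun ω j =>
    Finsupp.single (K + j) (Pi.single ((ω (K + j) : ℕ)) (1 : ℤ))
  have hval : ∀ ω j, val (e ω j) = ((ω (K + j) : ℕ) : ℤ) := by
    intro ω j
    change val (Finsupp.single _ _) = _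
    rw [val, Finsupp.sum_single_index (by simp)]
    simp only [Pi.single_apply, ite_mul, one_mul, zero_mul, Finset.sum_ite_eq', (ω (K + j)).2,
      if_true]
  set u : ℕ →₀ (ℕ → ℤ) := ∑ j ∈ Finset.range 3, (e ω j - e ω' j) with hu
  have hval_sum : ∀ (s : Finset ℕ) (f : ℕ → (ℕ →₀ (ℕ → ℤ))),
      val (∑ j ∈ s, f j) = ∑ j ∈ s, val (f j) := by
    intro s f
    induction s using Finset.induction_on with
    | empty => simp [val]
    | insert a s ha ih => rw [Finset.sum_insert ha, Finset.sum_insert ha, val_add, ih]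
  have hvu : val u = ∑ j ∈ Finset.range 3, ((ω (K + j) : ℕ) : ℤ) -
      ∑ j ∈ Finset.range 3, ((ω' (K + j) : ℕ) : ℤ) := by
    rw [hu, hval_sum, ← Finset.sum_sub_distrib]
    apply Finset.sum_congr rfl
    intro j _
    rw [val_sub, hval, hval]
  have hu1 : ∀ k, ∑ s ∈ SS k, |u k s| ≤ 2 := by
    intro k
    have h5 : ∀ (ω : P) (j : ℕ), ∑ s ∈ SS k, |(e ω j) k s| ≤ if j = k - K ∧ K ≤ k then 1 else 0 := by
      intro ω j
      by_cases hk : K + j = k
      · rw [if_pos (by omega)]
        have : ∀ s, (e ω j) k s = if s = (ω (K + j) : ℕ) then 1 else 0 := by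
          intro s
          change (Finsupp.single _ _ : ℕ →₀ (ℕ → ℤ)) k s = _
          rw [hk, Finsupp.single_eq_same, Pi.single_apply]
        simp only [this]
        calc ∑ s ∈ SS k, |(if s = (ω (K + j) : ℕ) then (1 : ℤ) else 0)|
            = ∑ s ∈ SS k, (if s = (ω (K + j) : ℕ) then (1 : ℤ) else 0) := by
              apply Finset.sum_congr rfl
              intro s _
              split_ifs <;> simp
          _ ≤ 1 := by
              rw [Finset.sum_ite_eq']
              split_ifs <;> simp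
      · have : ∀ s, (e ω j) k s = 0 := by
          intro s
          change (Finsupp.single _ _ : ℕ →₀ (ℕ → ℤ)) k s = _
          rw [Finsupp.single_eq_of_ne (fun h => hk h.symm)]
          rfl
        simp only [this, abs_zero, Finset.sum_const_zero]
        split_ifs <;> simp
    calc ∑ s ∈ SS k, |u k s| ≤ ∑ s ∈ SS k, ∑ j ∈ Finset.range 3,
          (|(e ω j) k s| + |(e ω' j) k s|) := by
          apply Finset.sum_le_sum
          intro s _
          rw [hu, Finsupp.coe_finsetSum, Finset.sum_apply, Finset.sum_apply]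
          refine (Finset.abs_sum_le_sum_abs _ _).trans ?_
          apply Finset.sum_le_sum
          intro j _
          exact abs_sub _ _
      _ = ∑ j ∈ Finset.range 3, (∑ s ∈ SS k, |(e ω j) k s| + ∑ s ∈ SS k, |(e ω' j) k s|) := by
          rw [Finset.sum_comm]
          apply Finset.sum_congr rfl
          intro j _
          rw [Finset.sum_add_distrib]
      _ ≤ ∑ j ∈ Finset.range 3, ((if j = k - K ∧ K ≤ k then (1 : ℤ) else 0) +
          (if j = k - K ∧ K ≤ k then (1 : ℤ) else 0)) := by
          apply Finset.sum_le_sum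
          intro j _
          exact add_le_add (h5 ω j) (h5 ω' j)
      _ ≤ 2 := by
          rw [Finset.sum_add_distrib]
          have h6 : ∑ j ∈ Finset.range 3, (if j = k - K ∧ K ≤ k then (1 : ℤ) else 0) ≤ 1 := by
            calc _ ≤ ∑ j ∈ Finset.range 3, (if j = k - K then (1 : ℤ) else 0) := by
                  apply Finset.sum_le_sum
                  intro j _
                  split_ifs with h1 h2 <;> first | omega | simp
              _ ≤ 1 := by
                  rw [Finset.sum_ite_eq']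
                  split_ifs <;> simp
          linarith
  have hw : ∀ k, ∑ s ∈ SS k, |(v - u) k s| ≤ 2 ^ (k + 1) + 2 := by
    intro k
    calc _ ≤ ∑ s ∈ SS k, (|v k s| + |u k s|) := by
          apply Finset.sum_le_sum
          intro s _
          exact abs_sub _ _
      _ = ∑ s ∈ SS k, |v k s| + ∑ s ∈ SS k, |u k s| := Finset.sum_add_distrib
      _ ≤ _ := add_le_add (h4 k) (hu1 k)
  have hvw : val (v - u) = n := by
    rw [val_sub, hvu, ← hv, hd]
    ring
  have h5 := key (v - u) hw (K := K) (by rw [hvw]; exact hn)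
  have hu0 : ∀ k < K, ∀ s, u k s = 0 := by
    intro k hk s
    rw [hu, Finsupp.coe_finsetSum, Finset.sum_apply, Finset.sum_apply]
    apply Finset.sum_eq_zero
    intro j _
    change (Finsupp.single _ _ - Finsupp.single _ _ : ℕ →₀ (ℕ → ℤ)) k s = 0
    rw [Finsupp.sub_apply, Finsupp.single_eq_of_ne (by omega), Finsupp.single_eq_of_ne (by omega)]
    simp
  rw [← hvw]
  apply val_eq_zero_of
  intro k s hs
  rcases lt_or_ge k K with hk | hk
  · rw [Finsupp.sub_apply, Pi.sub_apply, hu0 k hk s, h3 k hk.le s hs, sub_zero]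
  · exact h5 k hk s hs

end Q68.WM
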