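import Mathlib
import Pool.Agent.Q68.WM.Space

/-! The uniform product measure on digit sequences: resampling and the zero-one law. -/

open MeasureTheory Filter Topology Set ProbabilityTheory
open scoped ENNReal

namespace Q68.WM

/-- the uniform probability on `S_k` -/
noncomputable def un (k : ℕ) : Measure (SS k) := ((SS k).card : ℝ≥0∞)⁻¹ • Measure.count

lemma card_ne_zero (k : ℕ) : ((SS k).card : ℝ≥0∞) ≠ 0 := by
  have := SS_card k
  exact_mod_cast (by omega : (SS k).card ≠ 0)

lemma card_ne_top (k : ℕ) : ((SS k).card : ℝ≥0∞) ≠ ∞ := ENNReal.natCast_ne_top _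

noncomputable instance (k : ℕ) : IsProbabilityMeasure (un k) := by
  constructor
  rw [un, Measure.smul_apply, ← Finset.coe_univ, Measure.count_apply_finset, smul_eq_mul,
    Finset.card_univ, Fintype.card_coe]
  exact ENNReal.inv_mul_cancel (card_ne_zero k) (card_ne_top k)

instance (k : ℕ) : Nonempty (SS k) := (SS_nonempty k).to_subtype

lemma lintegral_un (k : ℕ) (f : SS k → ℝ≥0∞) :
    ∫⁻ s, f s ∂(un k) = ((SS k).card : ℝ≥0∞)⁻¹ * ∑ s, f s := by
  rw [un, lintegral_smul_measure, lintegral_count, tsum_fintype, smul_eq_mul]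

/-- the uniform product measure -/
noncomputable def pp : Measure P := Measure.infinitePi un

noncomputable instance : IsProbabilityMeasure pp := by unfold pp; infer_instance

/-- replacing one digit -/
noncomputable def upd (K : ℕ) (p : P × SS K) : P := Function.update p.1 K p.2

lemma measurable_upd (K : ℕ) : Measurable (upd K) := by
  apply measurable_pi_lambda
  intro i
  by_cases h : i = K
  · subst h
    have : (fun p : P × SS i => upd i p i) = fun p => p.2 := by
      funext p; simp [upd]
    rw [this]
    exact measurable_snd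
  · have : (fun p : P × SS K => upd K p i) = fun p => p.1 i := by
      funext p; simp [upd, Function.update_of_ne h]
    rw [this]
    exact (measurable_pi_apply i).comp measurable_fst

lemma mp_upd (K : ℕ) : MeasurePreserving (upd K) (pp.prod (un K)) pp := by
  classical
  refine ⟨measurable_upd K, ?_⟩
  apply Measure.eq_infinitePi
  intro I t ht
  rw [Measure.map_apply (measurable_upd K) (MeasurableSet.pi I.countable_toSet fun i _ => ht i)]
  by_cases hK : K ∈ I
  · have e : upd K ⁻¹' (Set.pi I t) = (Set.pi (I.erase K : Finset ℕ) t) ×ˢ t K := by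
      ext ⟨ω, s⟩
      simp only [mem_preimage, Set.mem_pi, Finset.mem_coe, Set.mem_prod, Finset.mem_erase, upd]
      constructor
      · intro h
        refine ⟨fun i hi => ?_, ?_⟩
        · have := h i hi.2
          rwa [Function.update_of_ne hi.1] at this
        · have := h K hK
          rwa [Function.update_self] at this
      · rintro ⟨h1, h2⟩ i hi
        by_cases hiK : i = K
        · subst hiK
          rwa [Function.update_self]
        · rw [Function.update_of_ne hiK]
          exact h1 i ⟨hiK, hi⟩
    rw [e, Measure.prod_prod, pp, Measure.infinitePi_pi _ (fun i _ => ht i),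
      Finset.prod_erase_mul _ _ hK]
  · have e : upd K ⁻¹' (Set.pi I t) = (Set.pi I t) ×ˢ Set.univ := by
      ext ⟨ω, s⟩
      simp only [mem_preimage, Set.mem_pi, Finset.mem_coe, Set.mem_prod, Set.mem_univ, and_true, upd]
      constructor
      · intro h i hi
        have := h i hi
        have hiK : i ≠ K := fun h => hK (h ▸ hi)
        rwa [Function.update_of_ne hiK] at this
      · intro h i hi
        have hiK : i ≠ K := fun h => hK (h ▸ hi)
        rw [Function.update_of_ne hiK]
        exact h i hi
    rw [e, Measure.prod_prod, measure_univ, mul_one, pp, Measure.infinitePi_pi _ (fun i _ => ht i)]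

/-- **resampling one digit** -/
lemma resample (K : ℕ) {H : P → ℝ≥0∞} (hH : Measurable H) :
    ∫⁻ ω, H ω ∂pp = ((SS K).card : ℝ≥0∞)⁻¹ * ∑ s : SS K, ∫⁻ ω, H (Function.update ω K s) ∂pp := by
  rw [← (mp_upd K).lintegral_comp hH,
    lintegral_prod (fun p => H (upd K p)) ((hH.comp (measurable_upd K)).aemeasurable)]
  have h1 : ∀ ω, ∫⁻ s, H (upd K (ω, s)) ∂(un K) =
      ((SS K).card : ℝ≥0∞)⁻¹ * ∑ s : SS K, H (Function.update ω K s) := by
    intro ω
    rw [lintegral_un]
    rfl
  simp_rw [h1]
  have hm : ∀ s : SS K, Measurable fun ω : P => H (Function.update ω K s) := by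
    intro s
    exact hH.comp ((measurable_upd K).comp (measurable_id.prodMk measurable_const))
  rw [lintegral_const_mul _ (Finset.measurable_sum _ fun s _ => hm s), lintegral_finsetSum _
    (fun s _ => hm s)]

lemma measurable_update (K : ℕ) (s : SS K) : Measurable fun ω : P => Function.update ω K s :=
  (measurable_upd K).comp (measurable_id.prodMk measurable_const)

lemma tail_update {K L : ℕ} (h : K < L) (ω : P) (s : SS K) :
    tail L (Function.update ω K s) = tail L ω := by
  apply tail_congr
  intro k hk
  rw [Function.update_of_ne (by omega)]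

/-- iterates of the translation -/
lemma inv_io {D : Set G} (hD : ∀ x, io 1 + x ∈ D ↔ x ∈ D) (n : ℤ) (x : G) : io n + x ∈ D ↔ x ∈ D := by
  have h1 : ∀ (n : ℕ) (x : G), io n + x ∈ D ↔ x ∈ D := by
    intro n
    induction n with
    | zero => intro x; simp [io_zero]
    | succ n ih =>
      intro x
      push_cast
      rw [add_comm (n : ℤ) 1, io_add, add_assoc, hD, ih]
  rcases Int.eq_nat_or_neg n with ⟨m, rfl | rfl⟩
  · exact h1 m x
  · rw [← h1 m (io (-(m : ℤ)) + x), ← add_assoc, ← io_add]
    simp [io_zero]

lemma tail_invariant {D : Set G} (hD : ∀ x, io 1 + x ∈ D ↔ x ∈ D) (K : ℕ) (ω : P) :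
    tail 0 ω ∈ D ↔ tail K ω ∈ D := by
  have := tail_sum 0 K ω
  rw [zero_add] at this
  rw [this, inv_io hD]

/-- **zero-one law** -/
lemma zero_one {D : Set G} (hDm : MeasurableSet D) (hD : ∀ x, io 1 + x ∈ D ↔ x ∈ D) :
    pp (tail 0 ⁻¹' D) = 0 ∨ pp (tail 0 ⁻¹' D) = 1 := by
  let s : ℕ → MeasurableSpace P := fun k => MeasurableSpace.comap (fun ω : P => ω k) inferInstance
  have hs : ∀ k, s k ≤ MeasurableSpace.pi := fun k => (measurable_pi_apply k).comap_le
  have hind : iIndep s pp := by
    have h := iIndepFun_infinitePi (P := un) (X := fun k (x : SS k) => x) (fun _ => measurable_id)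
    exact h
  apply measure_zero_or_one_of_measurableSet_limsup_atTop hs hind
  rw [limsup_eq_iInf_iSup_of_nat, MeasurableSpace.measurableSet_iInf]
  intro n
  have e : tail 0 ⁻¹' D = tail n ⁻¹' D := by
    ext ω
    exact tail_invariant hD n ω
  rw [e]
  have hm : @Measurable P G (⨆ i, ⨆ (_ : i ≥ n), s i) _ (tail n) := by
    have hj : ∀ j, @Measurable P G (⨆ i, ⨆ (_ : i ≥ n), s i) _ (dig (n + j)) := by
      intro j
      have h1 : @Measurable P (SS (n + j)) (s (n + j)) _ (fun ω : P => ω (n + j)) :=
        comap_measurable _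
      have h2 : Measurable fun t : SS (n + j) => io ((t : ℕ) : ℤ) := measurable_of_countable _
      have h3 : @Measurable P G (s (n + j)) _ (dig (n + j)) := h2.comp h1
      exact h3.mono (le_iSup₂_of_le (n + j) (by omega) le_rfl) le_rfl
    apply @measurable_of_tendsto_metrizable P G (⨆ i, ⨆ (_ : i ≥ n), s i) _ _ _ _
      (fun m ω => ∑ j ∈ Finset.range m, dig (n + j) ω)
    · intro m
      exact Finset.measurable_sum _ fun j _ => hj j
    · rw [tendsto_pi_nhds]
      intro ω
      exact (summable_dig n ω).hasSum.tendsto_sum_nat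
  exact hm hDm

end Q68.WM
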