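import Mathlib
import Pool.Agent.Q68.WM.Prob
import Pool.Agent.Q68.WM.Par

/-! Sets invariant under the product of the translation and a measure-preserving map. -/

open MeasureTheory Filter Topology Set ProbabilityTheory
open scoped ENNReal symmDiff

namespace Q68.WM

lemma tail_update_zero (K : ℕ) (ω : P) (s : SS K) :
    tail 0 (Function.update ω K s) = io ((s : ℕ) : ℤ) + (tail 0 ω - dig K ω) := by
  have h1 := tail_sum 0 K ω
  have h2 := tail_sum 0 K (Function.update ω K s)
  rw [zero_add] at h1 h2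
  have h3 : ∑ j ∈ Finset.range K, ((Function.update ω K s (0 + j) : ℕ) : ℤ) =
      ∑ j ∈ Finset.range K, ((ω (0 + j) : ℕ) : ℤ) := by
    apply Finset.sum_congr rfl
    intro j hj
    rw [Finset.mem_range] at hj
    rw [Function.update_of_ne (by omega)]
  rw [h2, h1, h3, tail_succ K ω, tail_succ K (Function.update ω K s),
    tail_update (Nat.lt_succ_self K), dig, Function.update_self]
  abel

variable {Y : Type} [MeasurableSpace Y] {ν : Measure Y} [IsProbabilityMeasure ν]

omit [MeasurableSpace Y] in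
lemma inv_iter {S : Y → Y} {E : Set (G × Y)} (hE : ∀ x y, (io 1 + x, S y) ∈ E ↔ (x, y) ∈ E)
    (n : ℕ) (x : G) (y : Y) : (io (n : ℤ) + x, S^[n] y) ∈ E ↔ (x, y) ∈ E := by
  induction n generalizing x y with
  | zero => simp [io_zero]
  | succ n ih =>
    rw [Function.iterate_succ_apply', Nat.cast_succ, add_comm (n : ℤ) 1, io_add, add_assoc, hE, ih]

lemma ind_congr {α β : Type*} {A : Set α} {B : Set β} {p : α} {q : β} (h : p ∈ A ↔ q ∈ B) :
    A.indicator (1 : α → ℂ) p = B.indicator (1 : β → ℂ) q := by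
  by_cases hm : p ∈ A
  · rw [Set.indicator_of_mem hm, Set.indicator_of_mem (h.1 hm)]; rfl
  · rw [Set.indicator_of_notMem hm, Set.indicator_of_notMem (fun h' => hm (h.2 h'))]

lemma ind_norm_le {α : Type*} (A : Set α) (p : α) : ‖A.indicator (1 : α → ℂ) p‖ ≤ 1 := by
  by_cases hm : p ∈ A
  · rw [Set.indicator_of_mem hm]; simp
  · rw [Set.indicator_of_notMem hm]; simp

lemma ind_inj {α β : Type*} {A : Set α} {B : Set β} {p : α} {q : β}
    (h : A.indicator (1 : α → ℂ) p = B.indicator (1 : β → ℂ) q) : p ∈ A ↔ q ∈ B := by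
  by_cases h3 : p ∈ A
  · by_cases h4 : q ∈ B
    · exact iff_of_true h3 h4
    · rw [Set.indicator_of_mem h3, Set.indicator_of_notMem h4] at h
      simp at h
  · by_cases h4 : q ∈ B
    · rw [Set.indicator_of_notMem h3, Set.indicator_of_mem h4] at h
      simp at h
    · exact iff_of_false h3 h4

lemma ind_sub_le {α β : Type*} {A : Set α} {A' B : Set β} {p : α} {q : β} (h : p ∈ A ↔ q ∈ A') :
    ‖A.indicator (1 : α → ℂ) p - B.indicator (1 : β → ℂ) q‖ₑ ≤
      (A' ∆ B).indicator (1 : β → ℝ≥0∞) q := by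
  rw [ind_congr h]
  by_cases h4 : q ∈ A'
  · rw [Set.indicator_of_mem h4]
    by_cases h5 : q ∈ B
    · rw [Set.indicator_of_mem h5]
      simp
    · rw [Set.indicator_of_notMem h5,
        Set.indicator_of_mem (show q ∈ A' ∆ B from Or.inl ⟨h4, h5⟩)]
      simp
  · rw [Set.indicator_of_notMem h4]
    by_cases h5 : q ∈ B
    · rw [Set.indicator_of_mem h5,
        Set.indicator_of_mem (show q ∈ A' ∆ B from Or.inr ⟨h5, h4⟩)]
      simp
    · rw [Set.indicator_of_notMem h5]
      simp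

/-- the indicator of a set, along random points -/
noncomputable def chi (E : Set (G × Y)) (ω : P) (y : Y) : ℂ :=
  E.indicator (1 : G × Y → ℂ) (tail 0 ω, y)

/-- the indicator of the approximating set -/
noncomputable def gg (t : Set (P × Y)) (ω : P) (y : Y) : ℂ := t.indicator (1 : P × Y → ℂ) (ω, y)

/-- the difference -/
noncomputable def dd (E : Set (G × Y)) (t : Set (P × Y)) (ω : P) (y : Y) : ℂ :=
  chi E ω y - gg t ω y

/-- the indicator, without the digit `K` -/
noncomputable def chi' (E : Set (G × Y)) (K : ℕ) (ω : P) (y : Y) : ℂ :=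
  E.indicator (1 : G × Y → ℂ) (tail 0 ω - dig K ω, y)

lemma measurable_ind {α : Type*} [MeasurableSpace α] {A : Set α} (hA : MeasurableSet A) :
    Measurable (A.indicator (1 : α → ℂ)) := measurable_one.indicator hA

lemma meas_slice {β : Type*} [MeasurableSpace β] {f : P → Y → β}
    (h : Measurable fun p : P × Y => f p.1 p.2) (ω : P) : Measurable (f ω) :=
  h.comp (measurable_prodMk_left (x := ω))

lemma measSet_slice {α : Type*} [MeasurableSpace α] {E : Set (α × Y)} (h : MeasurableSet E) (x : α) :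
    MeasurableSet {y | (x, y) ∈ E} := measurable_prodMk_left (x := x) h

lemma measurable_tail_prod : Measurable fun p : P × Y => (tail 0 p.1, p.2) :=
  Measurable.prodMk ((measurable_tail 0).comp measurable_fst) measurable_snd

lemma measurable_chi {E : Set (G × Y)} (hEm : MeasurableSet E) :
    Measurable fun p : P × Y => chi E p.1 p.2 := by
  have h1 := (measurable_ind hEm).comp (measurable_tail_prod (Y := Y))
  exact h1

lemma measurable_chi_sub {E : Set (G × Y)} (hEm : MeasurableSet E) {S : Y → Y}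
    (hS : Measurable S) :
    Measurable fun p : P × Y => ‖chi E p.1 p.2 - chi E p.1 (S p.2)‖ₑ := by
  have h1 : Measurable fun p : P × Y => (p.1, S p.2) :=
    measurable_fst.prodMk (hS.comp measurable_snd)
  have h2 := (measurable_chi hEm).comp h1
  have h3 := (measurable_chi hEm).sub h2
  exact h3.enorm

lemma enorm_natCast_complex (n : ℕ) : ‖(n : ℂ)‖ₑ = (n : ℝ≥0∞) := by
  rw [← ofReal_norm, Complex.norm_natCast, ENNReal.ofReal_natCast]

lemma tri (K : ℕ) (u v : SS K → ℂ) (w : ℂ) :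
    ‖∑ s : SS K, (u s - v s) + w‖ₑ ≤ ∑ s : SS K, (‖u s‖ₑ + ‖v s‖ₑ) + ‖w‖ₑ := by
  refine (enorm_add_le _ _).trans ?_
  gcongr
  refine (enorm_sum_le _ _).trans ?_
  apply Finset.sum_le_sum
  intro s _
  exact enorm_sub_le

lemma J_le {S : Y → Y} (hS : MeasurePreserving S ν ν) {E : Set (G × Y)} (hEm : MeasurableSet E)
    (hE : ∀ x y, (io 1 + x, S y) ∈ E ↔ (x, y) ∈ E) {t : Set (P × Y)} (ht : MeasurableSet t) {K : ℕ}
    (htK : ∀ (ω : P) (y : Y) (s : SS K), (Function.update ω K s, y) ∈ t ↔ (ω, y) ∈ t) :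
    ∫⁻ ω, ∫⁻ y, ‖chi E ω y - chi E ω (S y)‖ₑ ∂ν ∂pp ≤
      2 * (∫⁻ ω, ∫⁻ y, ‖dd E t ω y‖ₑ ∂ν ∂pp) +
        ENNReal.ofReal (1 / ((K : ℝ) + 1)) := by
  classical
  -- measurability
  have hχm : Measurable fun p : P × Y => chi E p.1 p.2 := measurable_chi hEm
  have hgm : Measurable fun p : P × Y => gg t p.1 p.2 := measurable_one.indicator ht
  have hDm : Measurable fun p : P × Y => dd E t p.1 p.2 := hχm.sub hgm
  have hgy : ∀ ω, Measurable (gg t ω) := fun ω => meas_slice hgm ω
  have hDy : ∀ ω, Measurable (dd E t ω) := fun ω => meas_slice hDm ω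
  have hχy : ∀ ω, Measurable (chi E ω) := fun ω => meas_slice hχm ω
  obtain ⟨a, ha⟩ : ∃ a : ℝ≥0∞, a = ((SS K).card : ℝ≥0∞) := ⟨_, rfl⟩
  have ha0 : a ≠ 0 := by rw [ha]; exact card_ne_zero K
  have hat : a ≠ ∞ := by rw [ha]; exact card_ne_top K
  -- the function without the digit `K`
  have h1 : ∀ (ω : P) (s : SS K) (y : Y), chi E (Function.update ω K s) (S^[(s : ℕ)] y) = chi' E K ω y := by
    intro ω s y
    have := inv_iter hE (s : ℕ) (tail 0 ω - dig K ω) y
    rw [← tail_update_zero] at this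
    exact ind_congr this
  have h1' : ∀ (ω : P) (y : Y), chi E ω (S^[(ω K : ℕ)] y) = chi' E K ω y := by
    intro ω y
    have := h1 ω (ω K) y
    rwa [Function.update_eq_self] at this
  -- step 1
  have h2 : ∀ ω, ∫⁻ y, ‖chi E ω y - chi E ω (S y)‖ₑ ∂ν = ∫⁻ y, ‖chi' E K ω y - chi' E K ω (S y)‖ₑ ∂ν := by
    intro ω
    have hm : Measurable fun y => ‖chi E ω y - chi E ω (S y)‖ₑ :=
      ((hχy ω).sub ((hχy ω).comp hS.measurable)).enorm
    rw [← (hS.iterate (ω K : ℕ)).lintegral_comp hm]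
    apply lintegral_congr
    intro y
    rw [h1' ω y, ← Function.iterate_succ_apply' S, Function.iterate_succ_apply, h1' ω (S y)]
  -- step 2
  have h3 : ∀ ω y, a * ‖chi' E K ω y - chi' E K ω (S y)‖ₑ ≤
      ∑ s : SS K, (‖dd E t (Function.update ω K s) (S^[(s : ℕ)] y)‖ₑ +
        ‖dd E t (Function.update ω K s) (S^[(s : ℕ) + 1] y)‖ₑ) +
      ‖∑ s ∈ SS K, (gg t ω (S^[s] y) - gg t ω (S^[s + 1] y))‖ₑ := by
    intro ω y
    have e1 : ((SS K).card : ℂ) * (chi' E K ω y - chi' E K ω (S y)) =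
        ∑ s : SS K, (dd E t (Function.update ω K s) (S^[(s : ℕ)] y) -
          dd E t (Function.update ω K s) (S^[(s : ℕ) + 1] y)) +
        ∑ s ∈ SS K, (gg t ω (S^[s] y) - gg t ω (S^[s + 1] y)) := by
      rw [← Finset.sum_coe_sort (SS K) (fun s => gg t ω (S^[s] y) - gg t ω (S^[s + 1] y)),
        ← Finset.sum_add_distrib]
      have e2 : ∀ s : SS K, (dd E t (Function.update ω K s) (S^[(s : ℕ)] y) -
          dd E t (Function.update ω K s) (S^[(s : ℕ) + 1] y)) +
          (gg t ω (S^[(s : ℕ)] y) - gg t ω (S^[(s : ℕ) + 1] y)) = chi' E K ω y - chi' E K ω (S y) := by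
        intro s
        have e3 : ∀ z, gg t (Function.update ω K s) z = gg t ω z := by
          intro z
          exact ind_congr (htK ω z s)
        have e4 := h1 ω s y
        have e5 := h1 ω s (S y)
        rw [← Function.iterate_succ_apply] at e5
        rw [dd, dd, e3, e3, ← e4, ← e5]
        rw [e4]
        ring
      rw [Finset.sum_congr rfl (fun s _ => e2 s), Finset.sum_const, Finset.card_univ,
        Fintype.card_coe, nsmul_eq_mul]
    have e6 : a * ‖chi' E K ω y - chi' E K ω (S y)‖ₑ = ‖((SS K).card : ℂ) * (chi' E K ω y - chi' E K ω (S y))‖ₑ := by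
      rw [enorm_mul, enorm_natCast_complex, ha]
    rw [e6, e1]
    exact tri K _ _ _
  -- step 3 : integrate over `y`
  have hDint : ∀ (ω : P) (n : ℕ), ∫⁻ y, ‖dd E t ω (S^[n] y)‖ₑ ∂ν = ∫⁻ y, ‖dd E t ω y‖ₑ ∂ν := by
    intro ω n
    exact (hS.iterate n).lintegral_comp (hDy ω).enorm
  have h4 : ∀ ω, a * ∫⁻ y, ‖chi' E K ω y - chi' E K ω (S y)‖ₑ ∂ν ≤
      ∑ s : SS K, 2 * ∫⁻ y, ‖dd E t (Function.update ω K s) y‖ₑ ∂ν +
        ENNReal.ofReal (1 / ((K : ℝ) + 1) * (SS K).card) := by
    intro ω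
    have hχ'm : Measurable (chi' E K ω) := by
      have h5 : chi' E K ω = fun y => chi E ω (S^[(ω K : ℕ)] y) := by
        funext y; exact (h1' ω y).symm
      rw [h5]
      exact (hχy ω).comp (hS.iterate _).measurable
    have hm2 : Measurable fun y => ‖chi' E K ω y - chi' E K ω (S y)‖ₑ :=
      (hχ'm.sub (hχ'm.comp hS.measurable)).enorm
    rw [← lintegral_const_mul _ hm2]
    have h8 : ∫⁻ y, a * ‖chi' E K ω y - chi' E K ω (S y)‖ₑ ∂ν ≤
        ∫⁻ y, (∑ s : SS K, (‖dd E t (Function.update ω K s) (S^[(s : ℕ)] y)‖ₑ +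
          ‖dd E t (Function.update ω K s) (S^[(s : ℕ) + 1] y)‖ₑ) +
        ‖∑ s ∈ SS K, (gg t ω (S^[s] y) - gg t ω (S^[s + 1] y))‖ₑ) ∂ν := lintegral_mono fun y => h3 ω y
    apply h8.trans
    rw [lintegral_add_left]
    · apply add_le_add
      · rw [lintegral_finsetSum]
        · apply Finset.sum_le_sum
          intro s _
          rw [lintegral_add_left, hDint, hDint, two_mul]
          exact ((hDy _).comp (hS.iterate _).measurable).enorm
        · intro s _
          exact (((hDy _).comp (hS.iterate _).measurable).enorm).add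
            (((hDy _).comp (hS.iterate _).measurable).enorm)
      · apply par_set hS (hgy ω) _ (SS K)
        · have : (0 : ℝ) < (SS K).card := by
            have := SS_card K
            exact_mod_cast (by omega : 0 < (SS K).card)
          positivity
        · intro z hz
          exact SS_exp K z hz
        · intro y
          exact ind_norm_le _ _
    · apply Finset.measurable_sum
      intro s _
      exact (((hDy _).comp (hS.iterate _).measurable).enorm).add
        (((hDy _).comp (hS.iterate _).measurable).enorm)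
  -- step 4 : integrate over `ω`
  have hHm : Measurable fun ω => ∫⁻ y, ‖dd E t ω y‖ₑ ∂ν := hDm.enorm.lintegral_prod_right'
  have h5 : a * ∫⁻ ω, ∫⁻ y, ‖chi E ω y - chi E ω (S y)‖ₑ ∂ν ∂pp ≤
      a * (2 * (∫⁻ ω, ∫⁻ y, ‖dd E t ω y‖ₑ ∂ν ∂pp) + ENNReal.ofReal (1 / ((K : ℝ) + 1))) := by
    rw [lintegral_congr h2]
    have hm1 : Measurable fun ω => ∫⁻ y, ‖chi' E K ω y - chi' E K ω (S y)‖ₑ ∂ν := by
      have e : (fun ω => ∫⁻ y, ‖chi' E K ω y - chi' E K ω (S y)‖ₑ ∂ν) =
          fun ω => ∫⁻ y, ‖chi E ω y - chi E ω (S y)‖ₑ ∂ν := by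
        funext ω; exact (h2 ω).symm
      rw [e]
      have : Measurable fun p : P × Y => ‖chi E p.1 p.2 - chi E p.1 (S p.2)‖ₑ :=
        measurable_chi_sub hEm hS.measurable
      exact this.lintegral_prod_right'
    rw [← lintegral_const_mul _ hm1]
    have h9 : ∫⁻ ω, a * ∫⁻ y, ‖chi' E K ω y - chi' E K ω (S y)‖ₑ ∂ν ∂pp ≤
        ∫⁻ ω, (∑ s : SS K, 2 * ∫⁻ y, ‖dd E t (Function.update ω K s) y‖ₑ ∂ν +
          ENNReal.ofReal (1 / ((K : ℝ) + 1) * (SS K).card)) ∂pp := lintegral_mono fun ω => h4 ω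
    apply h9.trans
    rw [lintegral_add_right _ measurable_const, lintegral_finsetSum]
    · rw [mul_add]
      apply add_le_add
      · have h6 := resample K hHm
        have h7 : ∑ s : SS K, ∫⁻ ω, 2 * ∫⁻ y, ‖dd E t (Function.update ω K s) y‖ₑ ∂ν ∂pp =
            2 * ∑ s : SS K, ∫⁻ ω, ∫⁻ y, ‖dd E t (Function.update ω K s) y‖ₑ ∂ν ∂pp := by
          rw [Finset.mul_sum]
          apply Finset.sum_congr rfl
          intro s _
          rw [lintegral_const_mul]
          exact hHm.comp (measurable_update K s)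
        rw [← ha] at h6
        rw [h7, h6, ← mul_assoc, ← mul_assoc, mul_comm a 2, mul_assoc 2 a,
          ENNReal.mul_inv_cancel ha0 hat, mul_one]
      · rw [lintegral_const, measure_univ, mul_one, ENNReal.ofReal_mul (by positivity),
          ENNReal.ofReal_natCast, mul_comm, ha]
    · intro s _
      exact (hHm.comp (measurable_update K s)).const_mul _
  exact (ENNReal.mul_le_mul_iff_right ha0 hat).1 h5

/-- approximation by sets which depend on finitely many digits -/
lemma approx {E' : Set (P × Y)} (hE' : MeasurableSet E') {ε : ℝ} (hε : 0 < ε) :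
    ∃ t : Set (P × Y), MeasurableSet t ∧
      (∃ K₀ : ℕ, ∀ K, K₀ ≤ K → ∀ (ω : P) (y : Y) (s : SS K),
        (Function.update ω K s, y) ∈ t ↔ (ω, y) ∈ t) ∧
      (pp.prod ν) (E' ∆ t) < ENNReal.ofReal ε := by
  classical
  let 𝒜 : Set (Set (P × Y)) := {t | MeasurableSet t ∧
      ∃ K₀ : ℕ, ∀ K, K₀ ≤ K → ∀ (ω : P) (y : Y) (s : SS K),
        (Function.update ω K s, y) ∈ t ↔ (ω, y) ∈ t}
  have hA : IsSetAlgebra 𝒜 := by
    have hempty : ∀ K, 0 ≤ K → ∀ (ω : P) (y : Y) (s : SS K),
        (Function.update ω K s, y) ∈ (∅ : Set (P × Y)) ↔ (ω, y) ∈ (∅ : Set (P × Y)) := by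
      intro K _ ω y s
      rw [Set.mem_empty_iff_false, Set.mem_empty_iff_false]
    refine ⟨⟨MeasurableSet.empty, 0, hempty⟩, ?_, ?_⟩
    · rintro t ⟨h1, K₀, h2⟩
      refine ⟨h1.compl, K₀, fun K hK ω y s => ?_⟩
      rw [Set.mem_compl_iff, Set.mem_compl_iff, h2 K hK]
    · rintro t t' ⟨h1, K₀, h2⟩ ⟨h1', K₀', h2'⟩
      refine ⟨h1.union h1', max K₀ K₀', fun K hK ω y s => ?_⟩
      rw [Set.mem_union, Set.mem_union, h2 K (le_trans (le_max_left _ _) hK),
        h2' K (le_trans (le_max_right _ _) hK)]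
  have hgen : (Prod.instMeasurableSpace : MeasurableSpace (P × Y)) = MeasurableSpace.generateFrom 𝒜 := by
    apply le_antisymm
    · apply sup_le
      · have h1 : @Measurable (P × Y) P (MeasurableSpace.generateFrom 𝒜) _ Prod.fst := by
          rw [@measurable_pi_iff]
          intro i B hB
          apply MeasurableSpace.measurableSet_generateFrom
          have hm0 : Measurable fun p : P × Y => p.1 i := (measurable_pi_apply i).comp measurable_fst
          have hm1 : MeasurableSet ((fun p : P × Y => p.1 i) ⁻¹' B) := hm0 hB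
          have hm2 : ∀ K, i + 1 ≤ K → ∀ (ω : P) (y : Y) (s : SS K),
              (Function.update ω K s, y) ∈ ((fun p : P × Y => p.1 i) ⁻¹' B) ↔
                (ω, y) ∈ ((fun p : P × Y => p.1 i) ⁻¹' B) := by
            intro K hK ω y s
            simp only [Set.mem_preimage]
            rw [Function.update_of_ne (by omega)]
          exact ⟨hm1, i + 1, hm2⟩
        exact h1.comap_le
      · have h1 : @Measurable (P × Y) Y (MeasurableSpace.generateFrom 𝒜) _ Prod.snd := by
          intro B hB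
          apply MeasurableSpace.measurableSet_generateFrom
          have hm2 : ∀ K, 0 ≤ K → ∀ (ω : P) (y : Y) (s : SS K),
              (Function.update ω K s, y) ∈ ((Prod.snd : P × Y → Y) ⁻¹' B) ↔
                (ω, y) ∈ ((Prod.snd : P × Y → Y) ⁻¹' B) := by
            intro K hK ω y s
            simp only [Set.mem_preimage]
          exact ⟨measurable_snd hB, 0, hm2⟩
        exact h1.comap_le
    · apply MeasurableSpace.generateFrom_le
      exact fun t ht => ht.1
  have hdense : (pp.prod ν).MeasureDense 𝒜 :=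
    Measure.MeasureDense.of_generateFrom_isSetAlgebra_finite (pp.prod ν) hA hgen
  obtain ⟨t, ht, h⟩ := hdense.approx E' hE' (measure_ne_top _ _) ε hε
  exact ⟨t, ht.1, ht.2, h⟩

lemma J_eq_zero {S : Y → Y} (hS : MeasurePreserving S ν ν) {E : Set (G × Y)} (hEm : MeasurableSet E)
    (hE : ∀ x y, (io 1 + x, S y) ∈ E ↔ (x, y) ∈ E) :
    ∫⁻ ω, ∫⁻ y, ‖chi E ω y - chi E ω (S y)‖ₑ ∂ν ∂pp = 0 := by
  classical
  have hmap : Measurable fun p : P × Y => (tail 0 p.1, p.2) := measurable_tail_prod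
  set E' : Set (P × Y) := (fun p : P × Y => (tail 0 p.1, p.2)) ⁻¹' E with hE'
  have hE'm : MeasurableSet E' := hmap hEm
  have key : ∀ ε : ℝ, 0 < ε →
      ∫⁻ ω, ∫⁻ y, ‖chi E ω y - chi E ω (S y)‖ₑ ∂ν ∂pp ≤ ENNReal.ofReal (3 * ε) := by
    intro ε hε
    obtain ⟨t, ht, ⟨K₀, hK₀⟩, hlt⟩ := approx (ν := ν) hE'm hε
    obtain ⟨n, hn⟩ := exists_nat_one_div_lt hε
    obtain ⟨K, hK⟩ : ∃ K : ℕ, K = max K₀ n := ⟨_, rfl⟩
    have h1 := J_le hS hEm hE ht (K := K) (fun ω y s => hK₀ K (by rw [hK]; exact le_max_left _ _) ω y s)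
    refine h1.trans ?_
    have h2 : ∫⁻ ω, ∫⁻ y, ‖dd E t ω y‖ₑ ∂ν ∂pp ≤
        ENNReal.ofReal ε := by
      have hsm : MeasurableSet (E' ∆ t) := hE'm.symmDiff ht
      have h3 : ∀ ω y, ‖dd E t ω y‖ₑ ≤
          (E' ∆ t).indicator (1 : P × Y → ℝ≥0∞) (ω, y) := by
        intro ω y
        exact ind_sub_le Iff.rfl
      calc ∫⁻ ω, ∫⁻ y, ‖dd E t ω y‖ₑ ∂ν ∂pp
          ≤ ∫⁻ ω, ∫⁻ y, (E' ∆ t).indicator (1 : P × Y → ℝ≥0∞) (ω, y) ∂ν ∂pp := by
            apply lintegral_mono
            intro ω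
            apply lintegral_mono
            intro y
            exact h3 ω y
        _ = ∫⁻ p, (E' ∆ t).indicator (1 : P × Y → ℝ≥0∞) p ∂(pp.prod ν) :=
            (lintegral_prod _ (measurable_one.indicator hsm).aemeasurable).symm
        _ = (pp.prod ν) (E' ∆ t) := lintegral_indicator_one hsm
        _ ≤ ENNReal.ofReal ε := hlt.le
    have h4 : ENNReal.ofReal (1 / ((K : ℝ) + 1)) ≤ ENNReal.ofReal ε := by
      apply ENNReal.ofReal_le_ofReal
      refine le_trans ?_ hn.le
      have : (n : ℝ) ≤ K := by rw [hK]; exact_mod_cast le_max_right K₀ n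
      gcongr
    calc _ ≤ 2 * ENNReal.ofReal ε + ENNReal.ofReal ε := by gcongr
      _ = ENNReal.ofReal (3 * ε) := by
        have : (2 : ℝ≥0∞) = ENNReal.ofReal 2 := by simp
        rw [this, ← ENNReal.ofReal_mul (by norm_num), ← ENNReal.ofReal_add (by positivity) hε.le]
        congr 1
        ring
  apply le_antisymm _ bot_le
  have h5 : Tendsto (fun n : ℕ => ENNReal.ofReal (3 * (1 / ((n : ℝ) + 1)))) atTop (𝓝 0) := by
    rw [← ENNReal.ofReal_zero]
    apply ENNReal.tendsto_ofReal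
    have := (tendsto_one_div_add_atTop_nhds_zero_nat (𝕜 := ℝ)).const_mul 3
    simpa using this
  exact ge_of_tendsto' h5 fun n => key _ (by positivity)

/-- almost every fibre is trivial -/
lemma fibre_trivial {S : Y → Y} (hS : Ergodic S ν) {E : Set (G × Y)} (hEm : MeasurableSet E)
    (hE : ∀ x y, (io 1 + x, S y) ∈ E ↔ (x, y) ∈ E) :
    ∀ᵐ ω ∂pp, ν {y | (tail 0 ω, y) ∈ E} = 0 ∨ ν {y | (tail 0 ω, y) ∈ E} = 1 := by
  have h1 := J_eq_zero hS.toMeasurePreserving hEm hE
  have hχm : Measurable fun p : P × Y => chi E p.1 p.2 := measurable_chi hEm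
  have hm : Measurable fun p : P × Y => ‖chi E p.1 p.2 - chi E p.1 (S p.2)‖ₑ :=
    measurable_chi_sub hEm hS.measurable
  have h1' := (lintegral_eq_zero_iff hm.lintegral_prod_right').1 h1
  refine Filter.Eventually.mono h1' fun ω hω => ?_
  have hmω : Measurable fun y => ‖chi E ω y - chi E ω (S y)‖ₑ :=
    meas_slice (f := fun ω y => ‖chi E ω y - chi E ω (S y)‖ₑ) hm ω
  have hω' : ∫⁻ y, ‖chi E ω y - chi E ω (S y)‖ₑ ∂ν = 0 := hω
  have hω2 := (lintegral_eq_zero_iff hmω).1 hω'
  have hsm : MeasurableSet {y | (tail 0 ω, y) ∈ E} := measSet_slice hEm _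
  have hinv : S ⁻¹' {y | (tail 0 ω, y) ∈ E} =ᵐ[ν] {y | (tail 0 ω, y) ∈ E} := by
    refine Filter.Eventually.mono hω2 fun y hy0 => ?_
    have hy1 : ‖chi E ω y - chi E ω (S y)‖ₑ = 0 := hy0
    have hy : chi E ω y = chi E ω (S y) := sub_eq_zero.1 (enorm_eq_zero.1 hy1)
    have h2 : ((tail 0 ω, S y) ∈ E) ↔ ((tail 0 ω, y) ∈ E) := (ind_inj hy).symm
    exact propext h2
  rcases hS.quasiErgodic.ae_empty_or_univ₀ hsm.nullMeasurableSet hinv with h2 | h2
  · left
    rw [measure_congr h2, measure_empty]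
  · right
    rw [measure_congr h2, measure_univ]

end Q68.WM
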