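import Mathlib
import Pool.Agent.Q68.WM.Prob

/-! The invariant infinite measure on the completed group. -/

open MeasureTheory Filter Topology Set ProbabilityTheory
open scoped ENNReal

namespace Q68.WM

/-- the law of `f + ∑_{k ≥ K} s_k` -/
noncomputable def law (K : ℕ) (f : ℤ) : Measure G := pp.map fun ω => io f + tail K ω

lemma measurable_add_tail (K : ℕ) (f : ℤ) : Measurable fun ω => io f + tail K ω :=
  (measurable_tail K).const_add _

noncomputable instance (K : ℕ) (f : ℤ) : IsProbabilityMeasure (law K f) :=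
  Measure.isProbabilityMeasure_map (measurable_add_tail K f).aemeasurable

lemma law_apply (K : ℕ) (f : ℤ) {A : Set G} (hA : MeasurableSet A) :
    law K f A = pp {ω | io f + tail K ω ∈ A} :=
  Measure.map_apply (measurable_add_tail K f) hA

lemma law_succ (K : ℕ) (f : ℤ) {A : Set G} (hA : MeasurableSet A) :
    law K f A = ((SS K).card : ℝ≥0∞)⁻¹ * ∑ s ∈ SS K, law (K + 1) (f + (s : ℤ)) A := by
  have hm : MeasurableSet {ω | io f + tail K ω ∈ A} := measurable_add_tail K f hA
  rw [law_apply K f hA, ← lintegral_indicator_one hm,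
    resample K (measurable_one.indicator hm), ← Finset.sum_coe_sort (SS K)]
  congr 1
  apply Finset.sum_congr rfl
  intro s _
  have hm' : MeasurableSet {ω | io (f + ((s : ℕ) : ℤ)) + tail (K + 1) ω ∈ A} :=
    measurable_add_tail (K + 1) _ hA
  rw [law_apply _ _ hA, ← lintegral_indicator_one hm']
  apply lintegral_congr
  intro ω
  have h : io f + tail K (Function.update ω K s) = io (f + ((s : ℕ) : ℤ)) + tail (K + 1) ω := by
    rw [tail_succ, tail_update (Nat.lt_succ_self K), io_add, dig, Function.update_self, add_assoc]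
  have h2 : Function.update ω K s ∈ {ω | io f + tail K ω ∈ A} ↔
      ω ∈ {ω | io (f + ((s : ℕ) : ℤ)) + tail (K + 1) ω ∈ A} := by
    change io f + tail K (Function.update ω K s) ∈ A ↔ _
    rw [h]
    exact Iff.rfl
  by_cases h3 : ω ∈ {ω | io (f + ((s : ℕ) : ℤ)) + tail (K + 1) ω ∈ A}
  · rw [Set.indicator_of_mem h3, Set.indicator_of_mem (h2.2 h3)]
    rfl
  · rw [Set.indicator_of_notMem h3, Set.indicator_of_notMem (fun h => h3 (h2.1 h))]

lemma law_shift (K : ℕ) (f n : ℤ) {A : Set G} (hA : MeasurableSet A) :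
    law K f ((fun x => io n + x) ⁻¹' A) = law K (n + f) A := by
  rw [law_apply _ _ hA, law_apply _ _ (measurable_const_add (io n) hA)]
  congr 1
  ext ω
  simp only [mem_preimage, Set.mem_ofPred_eq, io_add, add_assoc]

/-- the weights -/
noncomputable def wt (K : ℕ) : ℝ≥0∞ := ∏ k ∈ Finset.range K, ((SS k).card : ℝ≥0∞)⁻¹

lemma wt_ne_zero (K : ℕ) : wt K ≠ 0 := by
  rw [wt, Finset.prod_ne_zero_iff]
  intro k _
  exact ENNReal.inv_ne_zero.2 (card_ne_top k)

lemma wt_ne_top (K : ℕ) : wt K ≠ ∞ := by
  rw [wt]
  apply ENNReal.prod_ne_top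
  intro k _
  exact ENNReal.inv_ne_top.2 (card_ne_zero k)

/-- the intervals `F_K` -/
noncomputable def FF (K : ℕ) : Finset ℤ := Finset.Icc (-(hh K : ℤ)) (hh K)

/-- the approximating measures -/
noncomputable def muK (K : ℕ) (A : Set G) : ℝ≥0∞ := wt K * ∑ f ∈ FF K, law K f A

lemma pair_inj {K : ℕ} {f f' : ℤ} (hf : f ∈ FF K) (hf' : f' ∈ FF K) {s s' : ℕ} (hs : s ∈ SS K)
    (hs' : s' ∈ SS K) (h : f + (s : ℤ) = f' + (s' : ℤ)) : f = f' ∧ s = s' := by
  classical
  rw [FF, Finset.mem_Icc] at hf hf'
  have hss : s = s' := by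
    by_contra hne
    have h1 := SS_diss K (Pi.single s 1 - Pi.single s' 1) ⟨s, hs, by
      simp [Pi.single_eq_of_ne hne]⟩ ?_
    · have h2 : ∑ t ∈ SS K, (Pi.single s (1 : ℤ) - Pi.single s' (1 : ℤ) : ℕ → ℤ) t * (t : ℤ) =
          (s : ℤ) - s' := by
        simp only [Pi.sub_apply, sub_mul, Finset.sum_sub_distrib, Pi.single_apply, ite_mul, one_mul,
          zero_mul, Finset.sum_ite_eq', hs, hs', if_true]
      rw [h2] at h1
      have h3 : (s : ℤ) - s' = f' - f := by linarith
      rw [h3] at h1
      have h4 : |f' - f| ≤ 2 * hh K := by rw [abs_le]; constructor <;> linarith [hf.1, hf.2, hf'.1, hf'.2]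
      linarith
    · calc ∑ t ∈ SS K, |(Pi.single s (1 : ℤ) - Pi.single s' (1 : ℤ) : ℕ → ℤ) t|
          ≤ ∑ t ∈ SS K, ((Pi.single s (1 : ℤ) : ℕ → ℤ) t + (Pi.single s' (1 : ℤ) : ℕ → ℤ) t) := by
            apply Finset.sum_le_sum
            intro k _
            simp only [Pi.sub_apply, Pi.single_apply]
            split_ifs <;> simp
        _ ≤ 2 := by
            rw [Finset.sum_add_distrib]
            simp only [Pi.single_apply, Finset.sum_ite_eq', hs, hs', if_true]
            norm_num
        _ ≤ 2 ^ (K + 1) + 2 := by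
            have : (0 : ℤ) ≤ 2 ^ (K + 1) := by positivity
            linarith
  subst hss
  exact ⟨by linarith, rfl⟩

lemma hh_succ_ge (K : ℕ) : hh K + (SS K).sup id + 1 ≤ hh (K + 1) := by
  rw [hh_succ]
  nlinarith [Nat.zero_le (2 ^ (K + 1) * (SS K).sup id), Nat.zero_le ((SS K).sup id),
    Nat.zero_le (2 * (SS K).card * (2 * hh K + 1))]

/-- shifted sums are bounded by the next sum -/
lemma sum_law_le (K : ℕ) {c : ℤ} (hc : |c| ≤ 1) {A : Set G} (hA : MeasurableSet A) :
    wt K * ∑ f ∈ FF K, law K (c + f) A ≤ muK (K + 1) A := by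
  classical
  rw [muK, wt, wt, Finset.prod_range_succ, mul_assoc]
  gcongr
  calc ∑ f ∈ FF K, law K (c + f) A
      = ∑ f ∈ FF K, ((SS K).card : ℝ≥0∞)⁻¹ * ∑ s ∈ SS K, law (K + 1) (c + f + (s : ℤ)) A :=
        Finset.sum_congr rfl fun f _ => law_succ K (c + f) hA
    _ = ((SS K).card : ℝ≥0∞)⁻¹ * ∑ f ∈ FF K, ∑ s ∈ SS K, law (K + 1) (c + f + (s : ℤ)) A := by
        rw [Finset.mul_sum]
    _ = ((SS K).card : ℝ≥0∞)⁻¹ * ∑ p ∈ FF K ×ˢ SS K, law (K + 1) (c + p.1 + (p.2 : ℤ)) A := by
        rw [Finset.sum_product]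
    _ = ((SS K).card : ℝ≥0∞)⁻¹ * ∑ g ∈ (FF K ×ˢ SS K).image (fun p => c + p.1 + (p.2 : ℤ)),
          law (K + 1) g A := by
        rw [Finset.sum_image]
        rintro ⟨f, s⟩ hp ⟨f', s'⟩ hp' h
        simp only [Finset.coe_product, Set.mem_prod, Finset.mem_coe] at hp hp'
        simp only at h
        obtain ⟨h1, h2⟩ := pair_inj hp.1 hp'.1 hp.2 hp'.2 (by linarith)
        rw [h1, h2]
    _ ≤ _ := by
        gcongr
        intro g hg
        obtain ⟨⟨f, s⟩, hp, rfl⟩ := Finset.mem_image.1 hg
        rw [Finset.mem_product, FF, Finset.mem_Icc] at hp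
        simp only at hp
        rw [FF, Finset.mem_Icc]
        have h1 := SS_le hp.2
        have h2 : ((s : ℕ) : ℤ) ≤ (((SS K).sup id : ℕ) : ℤ) := by exact_mod_cast h1
        have h3 : ((hh K : ℤ) + (((SS K).sup id : ℕ) : ℤ) + 1) ≤ hh (K + 1) := by
          exact_mod_cast hh_succ_ge K
        have h4 := abs_le.1 hc
        have h5 : (0 : ℤ) ≤ (s : ℤ) := by positivity
        constructor <;> simp only <;> linarith [hp.1.1, hp.1.2, h4.1, h4.2]

lemma muK_mono (A : Set G) (hA : MeasurableSet A) : Monotone fun K => muK K A := by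
  apply monotone_nat_of_le_succ
  intro K
  have := sum_law_le K (c := 0) (by simp) hA
  simpa [muK] using this

/-- the measure -/
noncomputable def mu : Measure G :=
  Measure.ofMeasurable (fun A _ => ⨆ K, muK K A) (by simp [muK]) (by
    intro f hf hd
    have h1 : ∀ K, muK K (⋃ i, f i) = ∑' i, muK K (f i) := by
      intro K
      rw [muK]
      simp only [measure_iUnion hd hf, muK]
      rw [ENNReal.tsum_mul_left]
      congr 1
      rw [Summable.tsum_finsetSum]
      intro _ _
      exact ENNReal.summable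
    simp only [h1]
    have h2 := lintegral_iSup (μ := (Measure.count : Measure ℕ)) (f := fun K i => muK K (f i))
      (fun K => measurable_of_countable _) (fun K L hKL i => muK_mono (f i) (hf i) hKL)
    simp only [lintegral_count] at h2
    exact h2.symm)

lemma mu_apply {A : Set G} (hA : MeasurableSet A) : mu A = ⨆ K, muK K A :=
  Measure.ofMeasurable_apply A hA

lemma muK_le {A : Set G} (hA : MeasurableSet A) (K : ℕ) : muK K A ≤ mu A := by
  rw [mu_apply hA]
  exact le_iSup (fun K => muK K A) K

/-- the translation -/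
noncomputable def T : G ≃ᵢ G := IsometryEquiv.addLeft (io 1)

lemma T_apply (x : G) : T x = io 1 + x := rfl

lemma T_symm_apply (x : G) : T.symm x = io (-1) + x := by
  rw [IsometryEquiv.symm_apply_eq, T_apply, ← add_assoc, ← io_add]
  simp [io_zero]

lemma mu_shift_le {c : ℤ} (hc : |c| ≤ 1) {A : Set G} (hA : MeasurableSet A) :
    mu ((fun x => io c + x) ⁻¹' A) ≤ mu A := by
  rw [mu_apply (measurable_const_add (io c) hA)]
  apply iSup_le
  intro K
  refine le_trans ?_ (muK_le hA (K + 1))
  refine le_trans (le_of_eq ?_) (sum_law_le K hc hA)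
  rw [muK]
  congr 1
  apply Finset.sum_congr rfl
  intro f _
  rw [law_shift K f c hA]

lemma T_mp : MeasurePreserving T mu mu := by
  refine ⟨T.continuous.measurable, ?_⟩
  ext A hA
  rw [Measure.map_apply T.continuous.measurable hA]
  apply le_antisymm (mu_shift_le (by norm_num) hA)
  have h1 := mu_shift_le (c := -1) (by norm_num) (T.continuous.measurable hA)
  have h2 : (fun x => io (-1) + x) ⁻¹' (T ⁻¹' A) = A := by
    ext x
    rw [mem_preimage, mem_preimage, T_apply, ← add_assoc, ← io_add]
    simp [io_zero]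
  rw [h2] at h1
  exact h1

lemma ball_pos (x : G) {ε : ℝ} (hε : 0 < ε) : 0 < mu (Metric.ball x ε) := by
  obtain ⟨n, hn⟩ := dense_io x (half_pos hε)
  obtain ⟨K0, hK0⟩ := exists_pow_lt_of_lt_one (half_pos hε) (show (1 / 2 : ℝ) < 1 by norm_num)
  set K := max K0 n.natAbs with hK
  have hK1 : (1 / 2 : ℝ) ^ K < ε / 2 :=
    lt_of_le_of_lt (pow_le_pow_of_le_one (by norm_num) (by norm_num) (le_max_left _ _)) hK0
  have hn1 : n ∈ FF K := by
    rw [FF, Finset.mem_Icc]
    have h1 : n.natAbs ≤ hh K := (le_max_right K0 n.natAbs).trans (le_hh K)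
    omega
  have h1 : law K n (Metric.ball x ε) = 1 := by
    rw [law_apply K n Metric.isOpen_ball.measurableSet]
    have : {ω | io n + tail K ω ∈ Metric.ball x ε} = Set.univ := by
      ext ω
      simp only [Metric.mem_ball, Set.mem_ofPred_eq, Set.mem_univ, iff_true]
      rw [dist_eq_norm]
      calc ‖io n + tail K ω - x‖ = ‖tail K ω - (x - io n)‖ := by congr 1; abel
        _ ≤ ‖tail K ω‖ + ‖x - io n‖ := norm_sub_le _ _
        _ < ε / 2 + ε / 2 := add_lt_add (lt_of_le_of_lt (norm_tail K ω) hK1) hn
        _ = ε := by ring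
    rw [this, measure_univ]
  refine lt_of_lt_of_le ?_ (muK_le Metric.isOpen_ball.measurableSet K)
  rw [muK]
  apply ENNReal.mul_pos (wt_ne_zero K)
  have h2 : law K n (Metric.ball x ε) ≤ ∑ f ∈ FF K, law K f (Metric.ball x ε) :=
    Finset.single_le_sum (f := fun f => law K f (Metric.ball x ε)) (fun _ _ => bot_le) hn1
  rw [h1] at h2
  exact (lt_of_lt_of_le one_pos h2).ne'

lemma mu_univ : mu Set.univ = ∞ := by
  have h1 : ∀ K, (2 : ℝ≥0∞) ^ K ≤ muK K Set.univ := by
    have h2 : ∀ K, muK K Set.univ = wt K * (2 * hh K + 1 : ℕ) := by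
      intro K
      rw [muK]
      simp only [measure_univ, Finset.sum_const, nsmul_eq_mul, mul_one]
      rw [FF, Int.card_Icc]
      congr 2
      omega
    intro K
    induction K with
    | zero => rw [h2]; simp [wt, hh]
    | succ K ih =>
      rw [h2] at ih
      rw [h2, wt, Finset.prod_range_succ, ← wt, pow_succ]
      have h3 : 2 * (SS K).card * (2 * hh K + 1) ≤ 2 * hh (K + 1) + 1 := by
        rw [hh_succ]
        nlinarith [Nat.zero_le ((2 ^ (K + 1) + 2) * (SS K).sup id), Nat.zero_le (hh K),
          Nat.zero_le (2 * (SS K).card * (2 * hh K + 1))]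
      calc 2 ^ K * 2 ≤ wt K * (2 * hh K + 1 : ℕ) * 2 := by gcongr
        _ = wt K * ((SS K).card : ℝ≥0∞)⁻¹ * ((2 * (SS K).card * (2 * hh K + 1) : ℕ) : ℝ≥0∞) := by
            push_cast
            calc _ = wt K * (((SS K).card : ℝ≥0∞)⁻¹ * (SS K).card) * (2 * (2 * hh K + 1)) := by
                  rw [ENNReal.inv_mul_cancel (card_ne_zero K) (card_ne_top K)]; ring
              _ = _ := by ring
        _ ≤ _ := by gcongr
  rw [eq_top_iff]
  have h3 : Tendsto (fun K : ℕ => (2 : ℝ≥0∞) ^ K) atTop (𝓝 ∞) :=
    ENNReal.tendsto_pow_atTop_nhds_top_iff.2 (by norm_num)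
  apply le_of_tendsto' h3
  intro K
  exact (h1 K).trans (muK_le MeasurableSet.univ K)

lemma law_singleton_le {K L : ℕ} (h : K ≤ L) (f : ℤ) (x : G) :
    law K f {x} ≤ ((SS L).card : ℝ≥0∞)⁻¹ := by
  classical
  obtain ⟨d, rfl⟩ := Nat.exists_eq_add_of_le h
  induction d generalizing K f with
  | zero =>
    simp only [add_zero]
    have hm := measurable_add_tail K f (measurableSet_singleton x)
    have hmx : MeasurableSet {ω | io f + tail K ω ∈ ({x} : Set G)} := hm
    rw [law_apply K f (measurableSet_singleton x), ← lintegral_indicator_one hmx,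
      resample K (measurable_one.indicator hmx)]
    have h1 : ∑ s : SS K, ∫⁻ ω, ({ω | io f + tail K ω ∈ ({x} : Set G)}.indicator
        (1 : P → ℝ≥0∞)) (Function.update ω K s) ∂pp ≤ 1 := by
      rw [← lintegral_finsetSum]
      · calc _ ≤ ∫⁻ _, 1 ∂pp := by
              apply lintegral_mono
              intro ω
              simp only
              by_cases hex : ∃ s : SS K, io f + tail K (Function.update ω K s) = x
              · obtain ⟨s, hs⟩ := hex
                rw [Finset.sum_eq_single s]
                · exact Set.indicator_le_self' (fun _ _ => bot_le) _ |>.trans (by simp)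
                · intro t _ hts
                  rw [Set.indicator_of_notMem]
                  simp only [Set.mem_ofPred_eq, Set.mem_singleton_iff]
                  intro ht
                  apply hts
                  rw [← ht] at hs
                  have h2 := add_left_cancel hs
                  rw [tail_succ, tail_succ K (Function.update ω K t),
                    tail_update (Nat.lt_succ_self K), tail_update (Nat.lt_succ_self K)] at h2
                  have h3 := add_right_cancel h2
                  rw [dig, dig, Function.update_self, Function.update_self] at h3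
                  have h4 : io (((s : ℕ) : ℤ) - ((t : ℕ) : ℤ)) = 0 := by rw [io_sub, h3, sub_self]
                  have h5 : nu (((s : ℕ) : ℤ) - ((t : ℕ) : ℤ)) = 0 := by rw [← norm_io, h4, norm_zero]
                  have h6 := eq_zero_of_nu h5
                  apply Subtype.ext
                  omega
                · intro h; exact absurd (Finset.mem_univ _) h
              · push Not at hex
                rw [Finset.sum_eq_zero]
                · exact bot_le
                · intro s _
                  rw [Set.indicator_of_notMem]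
                  simp only [Set.mem_ofPred_eq, Set.mem_singleton_iff]
                  exact hex s
          _ = 1 := by simp
      · intro s _
        exact (measurable_one.indicator hmx).comp (measurable_update K s)
    calc _ ≤ ((SS K).card : ℝ≥0∞)⁻¹ * 1 := by gcongr
      _ = _ := mul_one _
  | succ d ih =>
    rw [law_succ K f (measurableSet_singleton x)]
    have e : K + (d + 1) = K + 1 + d := by ring
    rw [e]
    calc _ ≤ ((SS K).card : ℝ≥0∞)⁻¹ * ∑ s ∈ SS K, ((SS (K + 1 + d)).card : ℝ≥0∞)⁻¹ := by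
          gcongr
          exact ih _ (by omega)
      _ = _ := by
          rw [Finset.sum_const, nsmul_eq_mul, ← mul_assoc,
            ENNReal.inv_mul_cancel (card_ne_zero K) (card_ne_top K), one_mul]

lemma law_singleton (K : ℕ) (f : ℤ) (x : G) : law K f {x} = 0 := by
  apply le_antisymm _ bot_le
  have h1 : Tendsto (fun L : ℕ => ((L : ℝ≥0∞))⁻¹) atTop (𝓝 0) :=
    ENNReal.tendsto_inv_nat_nhds_zero
  apply ge_of_tendsto h1
  filter_upwards [eventually_ge_atTop K] with L hL
  refine (law_singleton_le hL f x).trans ?_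
  rw [ENNReal.inv_le_inv]
  have := SS_card L
  exact_mod_cast (by omega : L ≤ (SS L).card)

lemma mu_singleton (x : G) : mu {x} = 0 := by
  rw [mu_apply (measurableSet_singleton x)]
  simp [muK, law_singleton]

end Q68.WM
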