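import Mathlib
import Pool.Agent.Q68.WM.Meas

/-! The measure is σ-finite. -/

open MeasureTheory Filter Topology Set ProbabilityTheory
open scoped ENNReal

namespace Q68.WM

lemma continuous_dig (k : ℕ) : Continuous (dig k) := by
  have h : Continuous fun s : SS k => io ((s : ℕ) : ℤ) := continuous_of_discreteTopology
  exact h.comp (continuous_apply k)

lemma continuous_tail (K : ℕ) : Continuous (tail K) :=
  continuous_tsum (fun j => continuous_dig (K + j)) (geom_summable K)
    (fun j ω => norm_dig (K + j) ω)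

/-- the set of the points `f + ∑_{k ≥ K} s_k` -/
def CC (K : ℕ) (f : ℤ) : Set G := Set.range fun ω : P => io f + tail K ω

lemma CC_closed (K : ℕ) (f : ℤ) : IsClosed (CC K f) := by
  have : Continuous fun ω : P => io f + tail K ω := continuous_const.add (continuous_tail K)
  exact (isCompact_range this).isClosed

/-- the possible partial sums -/
noncomputable def sums (K : ℕ) (f : ℤ) : ℕ → Finset ℤ
  | 0 => {f}
  | d + 1 => Finset.image₂ (fun g (s : ℕ) => g + (s : ℤ)) (sums K f d) (SS (K + d))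

lemma card_sums (K : ℕ) (f : ℤ) (d : ℕ) :
    (sums K f d).card ≤ ∏ j ∈ Finset.range d, (SS (K + j)).card := by
  induction d with
  | zero => simp [sums]
  | succ d ih =>
    rw [Finset.prod_range_succ, sums]
    exact (Finset.card_image₂_le _ _ _).trans (Nat.mul_le_mul_right _ ih)

lemma mem_sums (K : ℕ) (f : ℤ) (d : ℕ) (ω : P) :
    f + ∑ j ∈ Finset.range d, ((ω (K + j) : ℕ) : ℤ) ∈ sums K f d := by
  induction d with
  | zero => simp [sums]
  | succ d ih =>
    rw [Finset.sum_range_succ, sums, ← add_assoc]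
    exact Finset.mem_image₂_of_mem ih (ω (K + d)).2

lemma sums_subset {K : ℕ} {f : ℤ} (hf : f ∈ FF K) (d : ℕ) {g : ℤ} (hg : g ∈ sums K f d) :
    g ∈ FF (K + d) := by
  induction d generalizing g with
  | zero =>
    rw [sums, Finset.mem_singleton] at hg
    rw [hg]
    exact hf
  | succ d ih =>
    rw [sums, Finset.mem_image₂] at hg
    obtain ⟨g', hg', s, hs, rfl⟩ := hg
    have h1 := ih hg'
    rw [FF, Finset.mem_Icc] at h1 ⊢
    have h2 := SS_le hs
    have h3 := hh_succ_ge (K + d)
    rw [← add_assoc]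
    constructor <;> omega

lemma two_hh_le (K : ℕ) : 2 * hh K + (SS K).sup id ≤ hh (K + 1) := by
  rw [hh_succ]
  have h1 := SS_card K
  have h2 : hh K ≤ (SS K).card * hh K := Nat.le_mul_of_pos_left _ (by omega)
  nlinarith [Nat.zero_le (2 ^ (K + 1) * (SS K).sup id), Nat.zero_le ((SS K).sup id),
    Nat.zero_le ((SS K).card)]

lemma mem_sums_of {K d : ℕ} {f g : ℤ} (hf : f ∈ FF K) (hg : g ∈ FF (K + d)) (ω : P)
    (h : io g + tail (K + d) ω ∈ CC K f) : g ∈ sums K f d := by
  obtain ⟨ω', h'⟩ := h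
  simp only at h'
  rw [tail_sum K d ω', ← add_assoc, ← io_add] at h'
  have h0 := mem_sums K f d ω'
  set g' := f + ∑ j ∈ Finset.range d, ((ω' (K + j) : ℕ) : ℤ) with hg'
  have h1 : g' ∈ FF (K + d) := sums_subset hf d h0
  rw [tail_succ (K + d) ω, tail_succ (K + d) ω', dig, dig, ← add_assoc, ← add_assoc, ← io_add,
    ← io_add] at h'
  have h2 : io ((g + ((ω (K + d) : ℕ) : ℤ)) - (g' + ((ω' (K + d) : ℕ) : ℤ))) + tail (K + d + 1) ω =
      tail (K + d + 1) ω' := by
    rw [io_sub, sub_add_eq_add_sub, ← h']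
    abel
  have h3 := SS_le (ω (K + d)).2
  have h4 := SS_le (ω' (K + d)).2
  have h5 := two_hh_le (K + d)
  have h6 := h1
  have h7 := hg
  rw [FF, Finset.mem_Icc] at h6 h7
  have h8 := inj_key (K := K + d + 1) (by
    rw [abs_le]
    constructor <;> omega) ω ω' h2
  obtain ⟨h9, _⟩ := pair_inj hg h1 (ω (K + d)).2 (ω' (K + d)).2 (by linarith)
  rw [h9]
  exact h0

lemma muK_CC {K : ℕ} {f : ℤ} (hf : f ∈ FF K) (d : ℕ) : muK (K + d) (CC K f) ≤ wt K := by
  classical
  have hm := (CC_closed K f).measurableSet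
  have h1 : ∀ g ∈ FF (K + d), g ∉ sums K f d → law (K + d) g (CC K f) = 0 := by
    intro g hg hn
    rw [law_apply _ _ hm]
    have : {ω | io g + tail (K + d) ω ∈ CC K f} = ∅ := by
      rw [Set.eq_empty_iff_forall_notMem]
      intro ω hω
      exact hn (mem_sums_of hf hg ω hω)
    rw [this, measure_empty]
  rw [muK]
  have h2 : ∑ g ∈ FF (K + d), law (K + d) g (CC K f) ≤
      ((∏ j ∈ Finset.range d, (SS (K + j)).card : ℕ) : ℝ≥0∞) := by
    calc ∑ g ∈ FF (K + d), law (K + d) g (CC K f)
        = ∑ g ∈ sums K f d, law (K + d) g (CC K f) := by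
          symm
          apply Finset.sum_subset (fun g hg => sums_subset hf d hg)
          intro g hg hn
          exact h1 g hg hn
      _ ≤ ∑ g ∈ sums K f d, 1 := Finset.sum_le_sum fun g _ => prob_le_one
      _ = ((sums K f d).card : ℝ≥0∞) := by simp
      _ ≤ _ := by exact_mod_cast card_sums K f d
  calc wt (K + d) * ∑ g ∈ FF (K + d), law (K + d) g (CC K f)
      ≤ wt (K + d) * ((∏ j ∈ Finset.range d, (SS (K + j)).card : ℕ) : ℝ≥0∞) := by gcongr
    _ = wt K * ∏ j ∈ Finset.range d, (((SS (K + j)).card : ℝ≥0∞)⁻¹ * ((SS (K + j)).card : ℝ≥0∞)) := by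
        rw [wt, wt, Finset.prod_range_add, Finset.prod_mul_distrib]
        push_cast
        ring
    _ = wt K := by
        rw [Finset.prod_eq_one, mul_one]
        intro j _
        exact ENNReal.inv_mul_cancel (card_ne_zero _) (card_ne_top _)

lemma mu_CC {K : ℕ} {f : ℤ} (hf : f ∈ FF K) : mu (CC K f) < ∞ := by
  have hm := (CC_closed K f).measurableSet
  refine lt_of_le_of_lt ?_ (lt_top_iff_ne_top.2 (wt_ne_top K))
  rw [mu_apply hm]
  apply iSup_le
  intro L
  refine (muK_mono _ hm (Nat.le_add_left L K)).trans (muK_CC hf L)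

instance : SigmaFinite mu := by
  classical
  let I := Σ K : ℕ, {f : ℤ // f ∈ FF K}
  let U : Set G := ⋃ i : I, CC i.1 i.2
  have hU : MeasurableSet U := MeasurableSet.iUnion fun i => (CC_closed _ _).measurableSet
  have h0 : mu Uᶜ = 0 := by
    rw [mu_apply hU.compl]
    simp only [ENNReal.iSup_eq_zero]
    intro K
    rw [muK]
    rw [Finset.sum_eq_zero, mul_zero]
    intro f hf
    rw [law_apply _ _ hU.compl]
    have : {ω | io f + tail K ω ∈ Uᶜ} = ∅ := by
      rw [Set.eq_empty_iff_forall_notMem]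
      intro ω hω
      apply hω
      exact Set.mem_iUnion.2 ⟨⟨K, f, hf⟩, ω, rfl⟩
    rw [this, measure_empty]
  apply Measure.sigmaFinite_of_countable (S := (Set.range fun i : I => CC i.1 i.2) ∪ {Uᶜ})
  · exact (Set.countable_range _).union (Set.countable_singleton _)
  · rintro s (⟨i, rfl⟩ | hs)
    · exact mu_CC i.2.2
    · rw [Set.mem_singleton_iff.1 hs, h0]
      exact ENNReal.zero_lt_top
  · rw [Set.sUnion_union, Set.sUnion_singleton, Set.sUnion_range]
    exact Set.union_compl_self U

end Q68.WM
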