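import Mathlib
import Pool.Agent.Q68.WM.Sigma
import Pool.Agent.Q68.WM.Mix
import Pool.Agent.Q68.WM.Defs

/-! Weak mixing of the translation. -/

open MeasureTheory Filter Topology Set ProbabilityTheory
open scoped ENNReal

namespace Q68.WM

lemma law_inv {D : Set G} (hDm : MeasurableSet D) (hD : ∀ x, io 1 + x ∈ D ↔ x ∈ D) (K : ℕ) (f : ℤ) :
    law K f D = pp (tail 0 ⁻¹' D) := by
  rw [law_apply K f hDm]
  congr 1
  ext ω
  simp only [Set.mem_ofPred_eq, mem_preimage]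
  rw [inv_io hD, tail_invariant hD K ω]

lemma mu_null {D : Set G} (hDm : MeasurableSet D) (hD : ∀ x, io 1 + x ∈ D ↔ x ∈ D)
    (h : pp (tail 0 ⁻¹' D) = 0) : mu D = 0 := by
  rw [mu_apply hDm]
  simp only [ENNReal.iSup_eq_zero]
  intro K
  rw [muK]
  rw [Finset.sum_eq_zero, mul_zero]
  intro f _
  rw [law_inv hDm hD, h]

variable {Y : Type} [MeasurableSpace Y] {ν : Measure Y} [IsProbabilityMeasure ν]

lemma fibre_inv {S : Y → Y} (hS : MeasurePreserving S ν ν) {E : Set (G × Y)}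
    (hEm : MeasurableSet E) (hE : ∀ x y, (io 1 + x, S y) ∈ E ↔ (x, y) ∈ E) (x : G) :
    ν {y | (io 1 + x, y) ∈ E} = ν {y | (x, y) ∈ E} := by
  have h1 : MeasurableSet {y | (io 1 + x, y) ∈ E} := measSet_slice hEm _
  rw [← hS.measure_preimage h1.nullMeasurableSet]
  congr 1
  ext y
  exact hE x y

lemma prod_ergodic_aux {S : Y → Y} (hS : Ergodic S ν) {E : Set (G × Y)} (hEm : MeasurableSet E)
    (hE : ∀ x y, (io 1 + x, S y) ∈ E ↔ (x, y) ∈ E) :
    (mu.prod ν) E = 0 ∨ (mu.prod ν) Eᶜ = 0 := by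
  have hm : Measurable fun x => ν {y | (x, y) ∈ E} := measurable_measure_prodMk_left hEm
  have hinv := fibre_inv hS.toMeasurePreserving hEm hE
  have hD0m : MeasurableSet {x | ν {y | (x, y) ∈ E} = 0} := hm (measurableSet_singleton 0)
  have hD1m : MeasurableSet {x | ν {y | (x, y) ∈ E} = 1} := hm (measurableSet_singleton 1)
  have hD0 : ∀ x, io 1 + x ∈ {x | ν {y | (x, y) ∈ E} = 0} ↔ x ∈ {x | ν {y | (x, y) ∈ E} = 0} := by
    intro x
    simp only [Set.mem_ofPred_eq]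
    rw [hinv]
  have hD1 : ∀ x, io 1 + x ∈ {x | ν {y | (x, y) ∈ E} = 1} ↔ x ∈ {x | ν {y | (x, y) ∈ E} = 1} := by
    intro x
    simp only [Set.mem_ofPred_eq]
    rw [hinv]
  have htriv := fibre_trivial hS hEm hE
  have hD0c : ∀ x, io 1 + x ∈ {x | ν {y | (x, y) ∈ E} = 0}ᶜ ↔ x ∈ {x | ν {y | (x, y) ∈ E} = 0}ᶜ := by
    intro x
    rw [Set.mem_compl_iff, Set.mem_compl_iff, hD0]
  have hD1c : ∀ x, io 1 + x ∈ {x | ν {y | (x, y) ∈ E} = 1}ᶜ ↔ x ∈ {x | ν {y | (x, y) ∈ E} = 1}ᶜ := by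
    intro x
    rw [Set.mem_compl_iff, Set.mem_compl_iff, hD1]
  have case0 : pp (tail 0 ⁻¹' {x | ν {y | (x, y) ∈ E} = 0}) = 1 → (mu.prod ν) E = 0 := by
    intro h
    have h1 : pp (tail 0 ⁻¹' {x | ν {y | (x, y) ∈ E} = 0}ᶜ) = 0 := by
      rw [Set.preimage_compl]
      exact (prob_compl_eq_zero_iff ((measurable_tail 0) hD0m)).2 h
    have h2 := mu_null hD0m.compl hD0c h1
    rw [Measure.measure_prod_null hEm]
    have h3 : ∀ᵐ x ∂mu, x ∈ {x | ν {y | (x, y) ∈ E} = 0} := by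
      rw [ae_iff]
      exact h2
    refine h3.mono fun x hx => ?_
    exact hx
  have case1 : pp (tail 0 ⁻¹' {x | ν {y | (x, y) ∈ E} = 1}) = 1 → (mu.prod ν) Eᶜ = 0 := by
    intro h
    have h1 : pp (tail 0 ⁻¹' {x | ν {y | (x, y) ∈ E} = 1}ᶜ) = 0 := by
      rw [Set.preimage_compl]
      exact (prob_compl_eq_zero_iff ((measurable_tail 0) hD1m)).2 h
    have h2 := mu_null hD1m.compl hD1c h1
    rw [Measure.measure_prod_null hEm.compl]
    have h3 : ∀ᵐ x ∂mu, x ∈ {x | ν {y | (x, y) ∈ E} = 1} := by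
      rw [ae_iff]
      exact h2
    refine h3.mono fun x hx => ?_
    have h4 : MeasurableSet {y | (x, y) ∈ E} := measSet_slice hEm x
    exact (prob_compl_eq_zero_iff h4).2 hx
  rcases zero_one hD0m hD0 with h0 | h0
  · rcases zero_one hD1m hD1 with h1 | h1
    · exfalso
      have h2 : pp (tail 0 ⁻¹' {x | ν {y | (x, y) ∈ E} = 0} ∪
          tail 0 ⁻¹' {x | ν {y | (x, y) ∈ E} = 1}) = 0 := measure_union_null h0 h1
      have h3 : pp (tail 0 ⁻¹' {x | ν {y | (x, y) ∈ E} = 0} ∪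
          tail 0 ⁻¹' {x | ν {y | (x, y) ∈ E} = 1}) = 1 := by
        have hmm : MeasurableSet (tail 0 ⁻¹' {x | ν {y | (x, y) ∈ E} = 0} ∪
          tail 0 ⁻¹' {x | ν {y | (x, y) ∈ E} = 1}) :=
            ((measurable_tail 0) hD0m).union ((measurable_tail 0) hD1m)
        rw [← prob_compl_eq_zero_iff hmm]
        exact htriv
      rw [h2] at h3
      exact zero_ne_one h3
    · exact Or.inr (case1 h1)
  · exact Or.inl (case0 h0)

theorem weaklyMixing : WeaklyMixing mu (fun x => io 1 + x) := by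
  intro Y _ ν _ S hS
  have hT : MeasurePreserving (fun x : G => io 1 + x) mu mu := T_mp
  refine ⟨hT.prod hS.toMeasurePreserving, ⟨?_⟩⟩
  intro E hEm hinv
  have hE : ∀ x y, (io 1 + x, S y) ∈ E ↔ (x, y) ∈ E := by
    intro x y
    have h := Set.ext_iff.1 hinv (x, y)
    exact h
  rw [eventuallyConst_set']
  rcases prod_ergodic_aux hS hEm hE with h | h
  · left
    rw [ae_eq_empty]
    exact h
  · right
    rw [ae_eq_univ]
    exact h

end Q68.WM
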